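import Pool.Agent.W385.HZ.K0

set_option autoImplicit false

namespace Pool.Agent.W385.HZ

/-- the function of `z` on indices -/
def fz : Fin 8 → Fin 8 := ![1, 2, 3, 4, 5, 6, 0, 7]

/-- the possible functions of `x` on indices -/
def fx (s2 s3 s4 s5 : Fin 8) : Fin 8 → Fin 8 := ![7, 6, s2, s3, s4, s5, 1, 0]

/-- the conditions on `x` -/
def good (s : Fin 8 → Fin 8) : Bool :=
  (List.finRange 8).all (fun i => decide (s (s i) = i) &&
    decide (fz (s (fz (s (fz (s i))))) = i))

lemma combi : ∀ s2 s3 s4 s5 : Fin 8, good (fx s2 s3 s4 s5) = true →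
    (s2 = 3 ∧ s3 = 2 ∧ s4 = 5 ∧ s5 = 4) := by
  decide +kernel

variable {Ω : Type*} [MulAction D Ω]

lemma zinv : (z : D)⁻¹ = z ^ 6 := by
  rw [eq_comm, eq_inv_iff_mul_eq_one, ← pow_succ]; exact z7

/-- a transitive action on 8 points in which `z` has exactly one fixed point is the standard one -/
lemma act8 (hcard : Nat.card Ω = 8) (ω : Ω) (hzω : z • ω = ω) (hxω : x • ω ≠ ω)
    (hfix : ∀ ω' : Ω, z • ω' = ω' → ω' = ω) {g : D} (hg : ∀ ω' : Ω, g • ω' = ω') : g ∈ K0 := by
  have hfin : Finite Ω := Nat.finite_of_card_ne_zero (by rw [hcard]; norm_num)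
  have hzn : ∀ n : ℕ, z ^ n • ω = ω := by
    intro n
    induction n with
    | zero => simp
    | succ n ih => rw [pow_succ, mul_smul, hzω, ih]
  -- powers of `z` fix only `ω`
  have hfixn : ∀ n : ℕ, n % 7 ≠ 0 → ∀ ω' : Ω, z ^ n • ω' = ω' → ω' = ω := by
    intro n hn ω' h
    apply hfix
    have h1 : ∀ m : ℕ, z ^ (n * m) • ω' = ω' := by
      intro m
      induction m with
      | zero => simp
      | succ m ih => rw [Nat.mul_succ, pow_add, mul_smul, h, ih]
    have h2 : ∃ m, (n * m) % 7 = 1 := by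
      have h3 : n % 7 < 7 := Nat.mod_lt _ (by norm_num)
      have h4 : ∀ m, (n * m) % 7 = ((n % 7) * m) % 7 := fun m => by rw [Nat.mod_mul_mod]
      simp only [h4]
      generalize n % 7 = a at hn h3
      interval_cases a
      · exact absurd rfl hn
      · exact ⟨1, rfl⟩
      · exact ⟨4, rfl⟩
      · exact ⟨5, rfl⟩
      · exact ⟨2, rfl⟩
      · exact ⟨3, rfl⟩
      · exact ⟨6, rfl⟩
    obtain ⟨m, hm⟩ := h2
    have h5 := h1 m
    rw [zz (n * m) 1 (by rw [hm])] at h5
    simpa using h5
  let f : Fin 8 → Ω := fun i => P i • ω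
  have hf7 : f 7 = ω := by simp [f, P]
  have hfi : ∀ i : Fin 8, i ≠ 7 → f i = z ^ (i : ℕ) • x • ω := by
    intro i hi
    simp only [f, P, hi, if_false, mul_smul]
  have hinj : Function.Injective f := by
    have key : ∀ i j : Fin 8, (i : ℕ) < j → f i ≠ f j := by
      intro i j hij h
      have hi : i ≠ 7 := by
        rintro rfl
        have := j.2
        change 7 < (j : ℕ) at hij
        omega
      by_cases hj : j = 7
      · subst hj
        rw [hf7, hfi i hi] at h
        apply hxω
        have h1 : x • ω = (z ^ (i : ℕ))⁻¹ • ω := by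
          rw [eq_inv_smul_iff]; exact h
        rw [h1, inv_smul_eq_iff, hzn]
      · rw [hfi i hi, hfi j hj] at h
        have h1 : x • ω = z ^ ((j : ℕ) - i) • x • ω := by
          have h2 : (j : ℕ) = i + (j - i) := by omega
          rw [h2, pow_add, mul_smul] at h
          exact smul_left_cancel _ h
        apply hxω
        refine hfixn ((j : ℕ) - i) ?_ _ h1.symm
        have := j.2
        have hj7 : (j : ℕ) ≠ 7 := fun h => hj (Fin.ext h)
        have : (j : ℕ) - i < 7 := by omega
        rw [Nat.mod_eq_of_lt this]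
        omega
    intro i j h
    by_contra hne
    have : (i : ℕ) ≠ j := fun h => hne (Fin.ext h)
    rcases Nat.lt_or_gt_of_ne this with h1 | h1
    · exact key i j h1 h
    · exact key j i h1 h.symm
  have hbij : Function.Bijective f := by
    have := Fintype.ofFinite Ω
    rw [Fintype.bijective_iff_injective_and_card]
    refine ⟨hinj, ?_⟩
    rw [← Nat.card_eq_fintype_card (α := Ω), hcard]; rfl
  have hz : ∀ i, z • f i = f (fz i) := by
    intro i
    fin_cases i
    · change z • ((P 0) • ω) = (P 1) • ω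
      simp [P, ← mul_smul]
    · change z • ((P 1) • ω) = (P 2) • ω
      change z • ((z ^ 1 * x) • ω) = (z ^ 2 * x) • ω
      rw [← mul_smul, ← mul_assoc, z_mul_pow]
    · change z • ((z ^ 2 * x) • ω) = (z ^ 3 * x) • ω
      rw [← mul_smul, ← mul_assoc, z_mul_pow]
    · change z • ((z ^ 3 * x) • ω) = (z ^ 4 * x) • ω
      rw [← mul_smul, ← mul_assoc, z_mul_pow]
    · change z • ((z ^ 4 * x) • ω) = (z ^ 5 * x) • ω
      rw [← mul_smul, ← mul_assoc, z_mul_pow]
    · change z • ((z ^ 5 * x) • ω) = (z ^ 6 * x) • ω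
      rw [← mul_smul, ← mul_assoc, z_mul_pow]
    · change z • ((z ^ 6 * x) • ω) = (z ^ 0 * x) • ω
      rw [← mul_smul, ← mul_assoc, z_mul_pow]
      norm_num [z7]
    · change z • ((P 7) • ω) = (P 7) • ω
      simp [P, hzω]
  choose s hs using fun i => hbij.2 (x • f i)
  have hs' : ∀ i, x • f i = f (s i) := fun i => (hs i).symm
  have hs0 : s 0 = 7 := by
    apply hinj
    rw [hs, hf7, hfi 0 (by decide)]
    change x • z ^ 0 • x • ω = ω
    rw [pow_zero, one_smul, ← mul_smul, x2, one_smul]
  have hs7 : s 7 = 0 := by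
    apply hinj
    rw [hs, hf7, hfi 0 (by decide)]
    change x • ω = z ^ 0 • x • ω
    rw [pow_zero, one_smul]
  have hs1 : s 1 = 6 := by
    apply hinj
    rw [hs, hfi 1 (by decide), hfi 6 (by decide)]
    change x • z ^ 1 • x • ω = z ^ 6 • x • ω
    have := congrArg (· • ω) xzx
    simp only [mul_smul, hzn] at this
    rw [pow_one]; exact this
  have hs6 : s 6 = 1 := by
    apply hinj
    rw [hs, hfi 1 (by decide), hfi 6 (by decide)]
    change x • z ^ 6 • x • ω = z ^ 1 • x • ω
    have := congrArg (· • ω) xz6x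
    simp only [mul_smul, hzω] at this
    rw [pow_one]; exact this
  have hss : ∀ i, s (s i) = i := by
    intro i
    apply hinj
    rw [← hs', ← hs', ← mul_smul, x2, one_smul]
  have hrel : ∀ i, fz (s (fz (s (fz (s i))))) = i := by
    intro i
    apply hinj
    rw [← hz, ← hs', ← hz, ← hs', ← hz, ← hs', ← mul_smul, ← mul_smul, ← mul_smul, ← mul_smul,
      ← mul_smul]
    have h1 : (x * z) ^ 3 = 1 := by rw [← y_eq]; exact y3
    have h2 : z * (x * (z * (x * (z * x)))) = x⁻¹ * (x * z) ^ 3 * x := by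
      simp only [pow_succ, pow_zero]; group
    have h3 : z * x * z * x * z * x = 1 := by
      have : z * x * z * x * z * x = x⁻¹ * (x * z) ^ 3 * x := by
        simp only [pow_succ, pow_zero]; group
      rw [this, h1]; group
    rw [h3, one_smul]
  have hsx : s = fx (s 2) (s 3) (s 4) (s 5) := by
    funext i
    fin_cases i
    · exact hs0
    · exact hs1
    · rfl
    · rfl
    · rfl
    · rfl
    · exact hs6
    · exact hs7
  have hcomb := combi (s 2) (s 3) (s 4) (s 5) (by
    rw [← hsx, good, List.all_eq_true]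
    intro i _
    rw [hss, hrel]
    simp)
  obtain ⟨e2, e3, e4, e5⟩ := hcomb
  rw [e2, e3, e4, e5] at hsx
  have hspx : ∀ i, s i = px i := by
    intro i
    rw [hsx]
    revert i
    decide
  have hact : ∀ g : D, ∀ i, g • f i = f (phi g i) := by
    intro g
    refine D_ind (p := fun g => ∀ i, g • f i = f (phi g i)) ?_ ?_ ?_ g
    · intro i; simp
    · intro g hg i
      rw [mul_smul, hg, hs', hspx, map_mul, phi_x]; rfl
    · intro g hg i
      rw [mul_smul, hg, hz, map_mul, phi_z]
      rfl
  rw [K0, MonoidHom.mem_ker]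
  ext1 i
  apply hinj
  rw [← hact, hg]
  rfl

end Pool.Agent.W385.HZ
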