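import Mathlib

/-!
The (2,3,7) triangle group `D`, its normal subgroup `K0` of index 168 and generators of `K0`.
-/

set_option autoImplicit false

namespace Pool.Agent.W385.HZ

/-- Relators of the (2,3,7) triangle group. -/
def rels : Set (FreeGroup (Fin 2)) :=
  {FreeGroup.of 0 ^ 2, FreeGroup.of 1 ^ 3, (FreeGroup.of 0 * FreeGroup.of 1) ^ 7}

/-- The (2,3,7) triangle group. -/
abbrev D : Type := PresentedGroup rels

/-- first generator -/
def x : D := PresentedGroup.of 0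
/-- second generator -/
def y : D := PresentedGroup.of 1
/-- their product -/
def z : D := x * y

lemma rel_eq_one {w : FreeGroup (Fin 2)} (h : w ∈ rels) : (PresentedGroup.mk rels w) = 1 :=
  PresentedGroup.one_of_mem h

lemma x2 : x * x = 1 := by
  have h := rel_eq_one (w := FreeGroup.of 0 ^ 2) (by simp [rels])
  rw [map_pow, pow_two] at h
  exact h

lemma y3 : y ^ 3 = 1 := by
  have h := rel_eq_one (w := FreeGroup.of 1 ^ 3) (by simp [rels])
  rw [map_pow] at h
  exact h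

lemma z7 : z ^ 7 = 1 := by
  have h := rel_eq_one (w := (FreeGroup.of 0 * FreeGroup.of 1) ^ 7) (by simp [rels])
  rw [map_pow, map_mul] at h
  exact h

lemma y_eq : y = x * z := by
  rw [z, ← mul_assoc, x2, one_mul]

lemma closure_xy : Subgroup.closure {x, y} = ⊤ := by
  have h : Set.range (PresentedGroup.of : Fin 2 → D) = {x, y} := by
    ext g
    constructor
    · rintro ⟨i, rfl⟩
      fin_cases i
      · exact Or.inl rfl
      · exact Or.inr rfl
    · rintro (rfl | rfl)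
      · exact ⟨0, rfl⟩
      · exact ⟨1, rfl⟩
  rw [← h]
  exact PresentedGroup.closure_range_of rels

lemma closure_xz : Subgroup.closure {x, z} = ⊤ := by
  rw [eq_top_iff, ← closure_xy, Subgroup.closure_le]
  have hx : x ∈ Subgroup.closure {x, z} := Subgroup.subset_closure (by simp)
  have hz : z ∈ Subgroup.closure {x, z} := Subgroup.subset_closure (by simp)
  rintro g (rfl | rfl)
  · exact hx
  · rw [SetLike.mem_coe, y_eq]
    exact mul_mem hx hz

/-- universal property -/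
def lift {G : Type*} [Group G] (a b : G) (ha : a * a = 1) (hb : b ^ 3 = 1) (hab : (a * b) ^ 7 = 1) :
    D →* G :=
  PresentedGroup.toGroup (f := ![a, b]) (by
    rintro w (rfl | rfl | rfl)
    · simp [pow_two, ha]
    · simp [hb]
    · simp [hab])

@[simp] lemma lift_x {G : Type*} [Group G] (a b : G) (ha hb hab) : lift a b ha hb hab x = a := by
  simp [lift, x]

@[simp] lemma lift_y {G : Type*} [Group G] (a b : G) (ha hb hab) : lift a b ha hb hab y = b := by
  simp [lift, y]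

@[simp] lemma lift_z {G : Type*} [Group G] (a b : G) (ha hb hab) :
    lift a b ha hb hab z = a * b := by
  simp [z]

lemma zz (n m : ℕ) (h : n % 7 = m % 7) : z ^ n = z ^ m := by
  rw [← Nat.div_add_mod n 7, ← Nat.div_add_mod m 7, pow_add, pow_mul, z7, one_pow, pow_add, pow_mul,
    z7, one_pow, h]

lemma xzx : x * z * x = z ^ 6 * x * z ^ 6 := by
  have h : (x * z) * (x * z) * (x * z) = 1 := by
    rw [← y_eq, ← pow_two, ← pow_succ]
    exact y3
  have h6 : z ^ 6 = z⁻¹ := by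
    rw [eq_inv_iff_mul_eq_one, ← pow_succ]; exact z7
  have hx : x⁻¹ = x := by rw [inv_eq_iff_mul_eq_one]; exact x2
  rw [h6]
  have : x * z * x = (z * (x * z))⁻¹ := by
    rw [eq_inv_iff_mul_eq_one, ← h]; group
  rw [this]
  rw [mul_inv_rev, mul_inv_rev, hx]

lemma xz6x : x * z ^ 6 * x = z * x * z := by
  have h6 : z ^ 6 = z⁻¹ := by
    rw [eq_inv_iff_mul_eq_one, ← pow_succ]; exact z7
  have hx : x⁻¹ = x := by rw [inv_eq_iff_mul_eq_one]; exact x2
  have h := congrArg (·⁻¹) xzx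
  simp only [mul_inv_rev, hx, h6] at h
  rw [h6, mul_assoc, h]
  group

/-- `r` -/
def r : D := x * z ^ 4 * x * z ^ 2 * x

lemma z_mul_pow (n : ℕ) : z * z ^ n = z ^ (n + 1) := (pow_succ' z n).symm
lemma pow_mul_z (n : ℕ) : z ^ n * z = z ^ (n + 1) := (pow_succ z n).symm

lemma xx (a : D) : x * (x * a) = a := by rw [← mul_assoc, x2, one_mul]
lemma zp (n m : ℕ) (a : D) : z ^ n * (z ^ m * a) = z ^ (n + m) * a := by
  rw [← mul_assoc, pow_add]
lemma z7' (a : D) : z ^ 7 * a = a := by rw [z7, one_mul]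

lemma r_inv : r⁻¹ = x * z ^ 5 * x * z ^ 3 * x := by
  rw [inv_eq_iff_mul_eq_one, r]
  simp only [mul_assoc, xx, zp]
  norm_num [xx, z7', z7, x2]
  rw [zp, z7', x2]

/-- The conjugator relation `x (z^4 x) = (z^5 x) z^6 r⁻¹`. -/
lemma x4 : x * (z ^ 4 * x) = (z ^ 5 * x) * (z ^ 6 * r⁻¹) := by
  rw [r_inv]
  have h1 : ∀ a, x * (z ^ 6 * (x * a)) = z * (x * (z * a)) := by
    intro a
    have := congrArg (· * a) xz6x
    simpa only [mul_assoc] using this
  have h2 : ∀ a, z * (z ^ 5 * a) = z ^ 6 * a := by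
    intro a; rw [← mul_assoc, z_mul_pow]
  have h3 : ∀ a, z ^ 5 * (z * a) = z ^ 6 * a := by
    intro a; rw [← mul_assoc, pow_mul_z]
  have h4 : ∀ a, z * (z ^ 3 * a) = z ^ 4 * a := by
    intro a; rw [← mul_assoc, z_mul_pow]
  have h5 : ∀ a, z ^ 6 * (z * a) = a := by
    intro a; rw [← mul_assoc, pow_mul_z]; exact z7' a
  simp only [mul_assoc]
  rw [h1, h2, h3, h1, h4, h5]

lemma r3 : r ^ 3 = 1 := by
  have hx : x⁻¹ = x := by rw [inv_eq_iff_mul_eq_one]; exact x2
  have h : r = (x * z ^ 4) * (x * z ^ 6) * (x * z ^ 4)⁻¹ := by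
    rw [eq_mul_inv_iff_mul_eq, r]
    simp only [mul_assoc, xx, ← pow_add]
  have h2 : (x * z ^ 6) ^ 3 = 1 := by
    have h3 : x * z ^ 6 = (z * x)⁻¹ := by
      rw [mul_inv_rev, hx]
      congr 1
      rw [eq_inv_iff_mul_eq_one, ← pow_succ]; exact z7
    have h4 : z * x = x * y * x⁻¹ := by rw [hx]; rfl
    rw [h3, h4, inv_pow, conj_pow, y3]
    simp
  rw [h, conj_pow, h2]
  simp

/-- `z₁ = r z r⁻¹` -/
def z1 : D := r * z * r⁻¹

/-- `k = z₁ z⁻⁴` -/
def k : D := z1 * z ^ 3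

lemma rz3 : (r * z) ^ 3 = 1 := by
  have hx : x⁻¹ = x := by rw [inv_eq_iff_mul_eq_one]; exact x2
  -- `s = (z^5 x)⁻¹ x (z^4 x) = z^6 r⁻¹` is a conjugate of `x z^6`
  have h1 : z ^ 6 * r⁻¹ = (z ^ 5 * x)⁻¹ * (x * (z ^ 4 * x)) := by
    rw [x4, inv_mul_cancel_left]
  have h2 : z ^ 6 * r⁻¹ = (r * z)⁻¹ := by
    rw [mul_inv_rev]
    congr 1
    rw [eq_inv_iff_mul_eq_one, ← pow_succ]; exact z7
  have h3 : (z ^ 5 * x)⁻¹ * (x * (z ^ 4 * x)) = (z ^ 5 * x)⁻¹ * (x * z ^ 6) * (z ^ 5 * x) := by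
    rw [mul_assoc]
    congr 1
    rw [mul_assoc x, zp]
    congr 2
    exact zz _ _ rfl
  have h4 : (x * z ^ 6) ^ 3 = 1 := by
    have h3 : x * z ^ 6 = (z * x)⁻¹ := by
      rw [mul_inv_rev, hx]
      congr 1
      rw [eq_inv_iff_mul_eq_one, ← pow_succ]; exact z7
    have h4 : z * x = x * y * x⁻¹ := by rw [hx]; rfl
    rw [h3, h4, inv_pow, conj_pow, y3]
    simp
  have h5 : (r * z)⁻¹ ^ 3 = 1 := by
    rw [← h2, h1, h3]
    have := conj_pow (i := 3) (a := (z ^ 5 * x)⁻¹) (b := x * z ^ 6)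
    rw [inv_inv] at this
    rw [this, h4]
    simp
  rw [inv_pow, inv_eq_one] at h5
  exact h5

end Pool.Agent.W385.HZ
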