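import Pool.Agent.W385.HZ.R3

set_option autoImplicit false

namespace Pool.Agent.W385.HZ

open R3

/-- matrices -/
abbrev S3 : Type := Matrix (Fin 3) (Fin 3) R3

lemma red_zero {x : R3} (h : red x = 0) : ∃ y, x = pi7 * y := by
  have h1 : ((x.a + x.b * 5 + x.d * 4 : ℤ) : ZMod 7) = 0 := by
    have : red x = (x.a : ZMod 7) + x.b * 5 + x.d * 4 := rfl
    rw [this] at h
    push_cast
    exact h
  rw [ZMod.intCast_zmod_eq_zero_iff_dvd] at h1
  obtain ⟨m, hm⟩ := h1
  refine ⟨⟨(4 * x.a - x.b + 2 * x.d) / 7, (-3 * x.a + 6 * x.b - 5 * x.d) / 7,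
    (x.a - 2 * x.b + 4 * x.d) / 7⟩, ?_⟩
  push_cast at hm
  ext
  · simp only [mul_a, pi7]; omega
  · simp only [mul_b, pi7]; omega
  · simp only [mul_d, pi7]; omega

lemma cast_mul_coords (n : ℕ) (x : R3) : (n : R3) * x = ⟨n * x.a, n * x.b, n * x.d⟩ := by
  rw [← nsmul_eq_mul, nsmul_coords]

lemma pi7_cancel {x : R3} (h : pi7 * x = 0) : x = 0 := by
  have h1 : (7 : R3) * x = 0 := by rw [← pi7_mul, mul_assoc, h, mul_zero]
  have h2 : (7 : R3) = ((7 : ℕ) : R3) := by norm_num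
  rw [h2, cast_mul_coords] at h1
  have ha := congrArg R3.a h1
  have hb := congrArg R3.b h1
  have hd := congrArg R3.d h1
  simp only [zero_a, zero_b, zero_d] at ha hb hd
  ext
  · simp only [zero_a]; omega
  · simp only [zero_b]; omega
  · simp only [zero_d]; omega

lemma pi7_smul_cancel {A : S3} (h : pi7 • A = 0) : A = 0 := by
  refine Matrix.ext fun i j => ?_
  apply pi7_cancel
  have := congrFun (congrFun h i) j
  simpa using this

lemma pi7_pow_smul_cancel (n : ℕ) {A : S3} (h : pi7 ^ n • A = 0) : A = 0 := by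
  induction n with
  | zero => simpa using h
  | succ n ih =>
    rw [pow_succ', mul_smul] at h
    exact ih (pi7_smul_cancel h)

lemma eq_zero_of_div {A : S3} (h : ∀ n : ℕ, ∃ B : S3, A = pi7 ^ n • B) : A = 0 := by
  refine Matrix.ext fun i j => ?_
  have h1 : ∀ m : ℕ, ∃ y : R3, A i j = ((7 ^ m : ℕ) : R3) * y := by
    intro m
    obtain ⟨B, hB⟩ := h (3 * m)
    refine ⟨u7 ^ m * B i j, ?_⟩
    have h2 : pi7 ^ 3 = 7 * u7 := by
      rw [seven_eq, mul_assoc, mul_comm v7, u7_v7, mul_one]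
    rw [hB, pow_mul, h2, mul_pow]
    simp only [Matrix.smul_apply, smul_eq_mul]
    push_cast
    ring
  have h2 : ∀ z : ℤ, (∀ m : ℕ, ((7 ^ m : ℕ) : ℤ) ∣ z) → z = 0 := by
    intro z hz
    by_contra h0
    have h3 := Int.le_of_dvd (by positivity) ((dvd_abs _ _).mpr (hz z.natAbs))
    have h4 : z.natAbs < 7 ^ z.natAbs := Nat.lt_pow_self (by norm_num)
    have h5 : (z.natAbs : ℤ) = |z| := Int.natCast_natAbs z
    have h6 : ((7 ^ z.natAbs : ℕ) : ℤ) ≤ (z.natAbs : ℤ) := by rw [h5]; exact h3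
    have h7 : 7 ^ z.natAbs ≤ z.natAbs := by exact_mod_cast h6
    omega
  have h3 : ∀ m, ∃ y : R3, A i j = ⟨(7 ^ m : ℕ) * y.a, (7 ^ m : ℕ) * y.b, (7 ^ m : ℕ) * y.d⟩ := by
    intro m
    obtain ⟨y, hy⟩ := h1 m
    exact ⟨y, by rw [hy, cast_mul_coords]⟩
  rw [Matrix.zero_apply]
  ext
  · apply h2; intro m; obtain ⟨y, hy⟩ := h3 m; rw [hy]; exact dvd_mul_right _ _
  · apply h2; intro m; obtain ⟨y, hy⟩ := h3 m; rw [hy]; exact dvd_mul_right _ _
  · apply h2; intro m; obtain ⟨y, hy⟩ := h3 m; rw [hy]; exact dvd_mul_right _ _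

open Polynomial in
lemma binom_poly (q : ℕ) : ∃ g : ℤ[X], (1 + X) ^ q = 1 + (q : ℤ[X]) * X + X * X * g := by
  induction q with
  | zero => exact ⟨0, by simp⟩
  | succ q ih =>
    obtain ⟨g, hg⟩ := ih
    refine ⟨(q : ℤ[X]) + g * (1 + X), ?_⟩
    rw [pow_succ, hg]
    push_cast
    ring

lemma binom_S (q : ℕ) (T : S3) : ∃ g : S3, (1 + T) ^ q = 1 + (q : S3) * T + T * T * g := by
  obtain ⟨g, hg⟩ := binom_poly q
  refine ⟨Polynomial.aeval T g, ?_⟩
  have := congrArg (Polynomial.aeval T) hg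
  simp only [map_add, map_mul, map_pow, map_one, Polynomial.aeval_X, map_natCast] at this
  exact this

lemma binom7 (T : S3) : (1 + T) ^ 7 = 1 + 7 * (T * (1 + T * (3 + 5 * T + 5 * T ^ 2 + 3 * T ^ 3 + T ^ 4)))
    + T ^ 7 := by
  have h : ((1 : Polynomial ℤ) + Polynomial.X) ^ 7 = 1 + 7 * (Polynomial.X * (1 + Polynomial.X *
      (3 + 5 * Polynomial.X + 5 * Polynomial.X ^ 2 + 3 * Polynomial.X ^ 3 + Polynomial.X ^ 4)))
      + Polynomial.X ^ 7 := by ring
  have := congrArg (Polynomial.aeval T) h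
  simp only [map_add, map_mul, map_pow, map_one, Polynomial.aeval_X, map_ofNat] at this
  exact this

lemma step {q : ℕ} (hq : q.Prime) {n : ℕ} (hn : 1 ≤ n) {B : S3} (h : (1 + pi7 ^ n • B) ^ q = 1) :
    ∃ B' : S3, B = pi7 • B' := by
  obtain ⟨n, rfl⟩ : ∃ m, n = m + 1 := ⟨n - 1, by omega⟩
  by_cases h7 : q = 7
  · subst h7
    rw [binom7] at h
    set T : S3 := pi7 ^ (n + 1) • B with hT
    set hh : S3 := 3 + 5 * T + 5 * T ^ 2 + 3 * T ^ 3 + T ^ 4 with hhh
    have h1 : (7 : S3) * (T * (1 + T * hh)) + T ^ 7 = 0 := by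
      have : (1 : S3) + ((7 : S3) * (T * (1 + T * hh)) + T ^ 7) = 1 := by rw [← add_assoc]; exact h
      exact add_left_cancel (a := (1 : S3)) (by rw [this, add_zero])
    have h2 : (7 : S3) * (T * (1 + T * hh)) = (7 : R3) • (T * (1 + T * hh)) := by
      have : (7 : S3) = (7 : R3) • (1 : S3) := by
        rw [← Algebra.algebraMap_eq_smul_one, map_ofNat]
      rw [this, smul_mul_assoc, one_mul]
    have h3 : T ^ 7 = pi7 ^ (n + 4) • (pi7 ^ (6 * n + 3) • B ^ 7) := by
      rw [hT, smul_pow, ← mul_smul, ← pow_mul, ← pow_add]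
      congr 2
      ring
    have h4 : (7 : R3) • (T * (1 + T * hh)) = pi7 ^ (n + 4) • (v7 • (B * (1 + T * hh))) := by
      conv_lhs => rw [hT, smul_mul_assoc, ← hT, ← mul_smul, seven_eq]
      rw [← mul_smul]
      congr 1
      ring
    rw [h2, h4, h3, ← smul_add] at h1
    have h5 := pi7_pow_smul_cancel _ h1
    have h6 : B * (1 + T * hh) = - (u7 • (pi7 ^ (6 * n + 3) • B ^ 7)) := by
      have h7 := congrArg (fun M : S3 => u7 • M) h5
      simp only [smul_add, smul_zero] at h7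
      rw [← mul_smul u7 v7, u7_v7, one_smul] at h7
      exact eq_neg_of_add_eq_zero_left h7
    refine ⟨- (u7 • (pi7 ^ (6 * n + 2) • B ^ 7)) - B * ((pi7 ^ n • B) * hh), ?_⟩
    have h8 : B = B * (1 + T * hh) - B * (T * hh) := by rw [mul_add, mul_one, add_sub_cancel_right]
    conv_lhs => rw [h8, h6, hT]
    rw [smul_sub, smul_neg]
    congr 1
    · congr 1
      rw [← mul_smul, ← mul_smul, ← mul_smul]
      congr 1
      ring
    · rw [smul_mul_assoc, mul_smul_comm, smul_mul_assoc, mul_smul_comm, ← mul_smul, ← pow_succ']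
  · obtain ⟨g, hg⟩ := binom_S q (pi7 ^ (n + 1) • B)
    rw [hg] at h
    set T : S3 := pi7 ^ (n + 1) • B with hT
    have h1 : (q : S3) * T + T * T * g = 0 := by
      have : (1 : S3) + ((q : S3) * T + T * T * g) = 1 := by rw [← add_assoc]; exact h
      exact add_left_cancel (a := (1 : S3)) (by rw [this, add_zero])
    have h2 : (q : S3) * T = pi7 ^ (n + 1) • ((q : R3) • B) := by
      have : (q : S3) = (q : R3) • (1 : S3) := by
        rw [← Algebra.algebraMap_eq_smul_one, map_natCast]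
      rw [this, smul_mul_assoc, one_mul, hT, ← mul_smul, ← mul_smul, mul_comm]
    have h3 : T * T * g = pi7 ^ (n + 1) • (pi7 ^ (n + 1) • (B * B * g)) := by
      rw [hT, smul_mul_assoc, mul_smul_comm, smul_mul_assoc, smul_mul_assoc]
    rw [h2, h3, ← smul_add] at h1
    have h5 := pi7_pow_smul_cancel _ h1
    have h6 : (q : R3) • B = - (pi7 ^ (n + 1) • (B * B * g)) := eq_neg_of_add_eq_zero_left h5
    have hcop : IsCoprime (q : ℤ) 7 := by
      have h7' : Nat.Coprime q 7 := (Nat.coprime_primes hq (by norm_num)).mpr h7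
      exact_mod_cast Nat.isCoprime_iff_coprime.mpr h7'
    obtain ⟨s, t, hst⟩ := hcop
    have hstR : (s : R3) * (q : R3) + (t : R3) * 7 = 1 := by exact_mod_cast congrArg (Int.cast : ℤ → R3) hst
    refine ⟨- ((s : R3) • (pi7 ^ n • (B * B * g))) + ((t : R3) * pi7 ^ 2 * v7) • B, ?_⟩
    have h8 : B = (s : R3) • ((q : R3) • B) + ((t : R3) * 7) • B := by
      rw [← mul_smul, ← add_smul, hstR, one_smul]
    conv_lhs => rw [h8, h6, seven_eq]
    rw [smul_add, smul_neg, smul_neg]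
    congr 1
    · congr 1
      rw [← mul_smul, ← mul_smul, ← mul_smul]
      congr 1
      ring
    · rw [← mul_smul]
      congr 1
      ring

theorem cong_torsion {q : ℕ} (hq : q.Prime) {A B : S3} (hA : A = 1 + pi7 • B) (h : A ^ q = 1) :
    A = 1 := by
  have key : ∀ n : ℕ, ∃ B : S3, A - 1 = pi7 ^ (n + 1) • B := by
    intro n
    induction n with
    | zero => exact ⟨B, by rw [hA]; simp⟩
    | succ n ih =>
      obtain ⟨B, hB⟩ := ih
      have h1 : A = 1 + pi7 ^ (n + 1) • B := by rw [← hB]; abel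
      obtain ⟨B', rfl⟩ := step hq (n := n + 1) (by omega) (by rw [← h1]; exact h)
      exact ⟨B', by rw [hB, ← mul_smul, ← pow_succ]⟩
  have h0 : A - 1 = 0 := by
    apply eq_zero_of_div
    intro n
    obtain ⟨B, hB⟩ := key n
    exact ⟨pi7 • B, by rw [hB, pow_succ, mul_smul]⟩
  exact sub_eq_zero.mp h0

end Pool.Agent.W385.HZ
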