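import Pool.Agent.W385.HZ.Basic

set_option autoImplicit false

namespace Pool.Agent.W385.HZ

/-- induction over `D` by left multiplication with `x` and `z` -/
lemma D_ind {p : D → Prop} (h1 : p 1) (hx : ∀ g, p g → p (x * g)) (hz : ∀ g, p g → p (z * g))
    (g : D) : p g := by
  have hg : g ∈ Subgroup.closure {x, z} := by rw [closure_xz]; trivial
  have hz' : ∀ n : ℕ, ∀ g, p g → p (z ^ n * g) := by
    intro n
    induction n with
    | zero => intro g hg; simpa using hg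
    | succ n ih => intro g hg; rw [pow_succ', mul_assoc]; exact hz _ (ih _ hg)
  induction hg using Subgroup.closure_induction_left with
  | one => exact h1
  | mul_left a ha b _ hb =>
    rcases ha with rfl | rfl
    · exact hx _ hb
    · exact hz _ hb
  | inv_mul_cancel a ha b _ hb =>
    rcases ha with rfl | rfl
    · have : x⁻¹ = x := by rw [inv_eq_iff_mul_eq_one]; exact x2
      rw [this]; exact hx _ hb
    · have : z⁻¹ = z ^ 6 := by
        rw [eq_comm, eq_inv_iff_mul_eq_one, ← pow_succ]; exact z7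
      rw [this]; exact hz' 6 _ hb

/-- the subgroup `⟨z, r⟩` -/
def H : Subgroup D := Subgroup.closure {z, r}

lemma z_mem_H : z ∈ H := Subgroup.subset_closure (by simp)
lemma r_mem_H : r ∈ H := Subgroup.subset_closure (by simp)

/-- representatives -/
def P (i : Fin 8) : D := if i = 7 then 1 else z ^ (i : ℕ) * x

lemma x_P0 : x * 1 = (z ^ 0 * x) * 1 := by simp

lemma cover_H (g : D) : ∃ i, ∃ h ∈ H, g = P i * h := by
  have hzn : ∀ n, z ^ n ∈ H := fun n => pow_mem z_mem_H n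
  have hr' : r⁻¹ ∈ H := inv_mem r_mem_H
  refine D_ind (p := fun g => ∃ i, ∃ h ∈ H, g = P i * h) ?_ ?_ ?_ g
  · exact ⟨7, 1, one_mem _, by simp [P]⟩
  · rintro g ⟨i, h, hh, rfl⟩
    fin_cases i
    · refine ⟨7, h, hh, ?_⟩
      simp [P, xx]
    · refine ⟨6, z ^ 6 * h, mul_mem (hzn _) hh, ?_⟩
      have := congrArg (· * h) xzx
      simp only [mul_assoc] at this
      simpa [P, mul_assoc] using this
    · refine ⟨3, r * h, mul_mem r_mem_H hh, ?_⟩
      change x * ((z ^ 2 * x) * h) = (z ^ 3 * x) * (r * h)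
      rw [r]
      simp only [mul_assoc, xx, zp]
      rw [z7']
    · refine ⟨2, r⁻¹ * h, mul_mem hr' hh, ?_⟩
      change x * ((z ^ 3 * x) * h) = (z ^ 2 * x) * (r⁻¹ * h)
      rw [r_inv]
      simp only [mul_assoc, xx, zp]
      rw [z7']
    · refine ⟨5, (z ^ 6 * r⁻¹) * h, mul_mem (mul_mem (hzn _) hr') hh, ?_⟩
      change x * ((z ^ 4 * x) * h) = (z ^ 5 * x) * ((z ^ 6 * r⁻¹) * h)
      rw [← mul_assoc, x4]
      simp only [mul_assoc]
    · refine ⟨4, (r * z) * h, mul_mem (mul_mem r_mem_H z_mem_H) hh, ?_⟩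
      change x * ((z ^ 5 * x) * h) = (z ^ 4 * x) * ((r * z) * h)
      have h1 : x * (z ^ 5 * x) = (z ^ 4 * x) * (r * z) := by
        have h2 : z ^ 5 * x = x * (z ^ 4 * x) * (r * z) := by
          rw [x4]
          have : z ^ 6 = z⁻¹ := by
            rw [eq_inv_iff_mul_eq_one, ← pow_succ]; exact z7
          rw [this]; group
        rw [h2, ← mul_assoc, ← mul_assoc x x, x2, one_mul]
      rw [← mul_assoc, h1]
      simp only [mul_assoc]
    · refine ⟨1, z * h, mul_mem z_mem_H hh, ?_⟩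
      change x * ((z ^ 6 * x) * h) = (z ^ 1 * x) * (z * h)
      have := congrArg (· * h) xz6x
      simp only [mul_assoc] at this
      simpa [mul_assoc] using this
    · refine ⟨0, h, hh, ?_⟩
      simp [P]
  · rintro g ⟨i, h, hh, rfl⟩
    by_cases hi : i = 7
    · subst hi
      exact ⟨7, z * h, mul_mem z_mem_H hh, by simp [P]⟩
    · by_cases hi6 : i = 6
      · subst hi6
        refine ⟨0, h, hh, ?_⟩
        change z * ((z ^ 6 * x) * h) = (z ^ 0 * x) * h
        rw [← mul_assoc, ← mul_assoc, z_mul_pow]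
        norm_num [z7]
      · refine ⟨i + 1, h, hh, ?_⟩
        have h1 : i + 1 ≠ 7 := by omega
        have h2 : ((i + 1 : Fin 8) : ℕ) = i + 1 := by
          rw [Fin.val_add_one]; split_ifs with h3
          · exfalso; apply hi; rw [h3]; rfl
          · rfl
        simp only [P, hi, h1, if_false, h2]
        rw [← mul_assoc, ← mul_assoc, z_mul_pow]

lemma aux1 {G : Type*} [Group G] (r z : G) :
    r * z * r⁻¹ * (r * (r * z * r⁻¹) * r⁻¹) * z = (r * z) ^ 3 * (z⁻¹ * (r ^ 3)⁻¹ * z) := by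
  simp only [pow_succ, pow_zero]; group

lemma aux2 {G : Type*} [Group G] (r b : G) :
    r * (r * b * r⁻¹) * r⁻¹ = r ^ 3 * (r⁻¹ * b * r) * (r ^ 3)⁻¹ := by
  simp only [pow_succ, pow_zero]; group

/-- the subgroup `⟨z, z₁⟩` -/
def B : Subgroup D := Subgroup.closure {z, z1}

lemma z_mem_B : z ∈ B := Subgroup.subset_closure (by simp)
lemma z1_mem_B : z1 ∈ B := Subgroup.subset_closure (by simp)

lemma z2_mem_B : r * z1 * r⁻¹ ∈ B := by
  have h : r * z1 * r⁻¹ = z1⁻¹ * z⁻¹ := by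
    have h1 : z1 * (r * z1 * r⁻¹) * z = (r * z) ^ 3 * (z⁻¹ * (r ^ 3)⁻¹ * z) := aux1 r z
    rw [rz3, r3] at h1
    have h3 : z1 * (r * z1 * r⁻¹) * z = 1 := by rw [h1]; group
    calc r * z1 * r⁻¹ = z1⁻¹ * (z1 * (r * z1 * r⁻¹) * z) * z⁻¹ := by group
      _ = z1⁻¹ * z⁻¹ := by rw [h3]; group
  rw [h]
  exact mul_mem (inv_mem z1_mem_B) (inv_mem z_mem_B)

lemma r_conj_B {b : D} (hb : b ∈ B) : r * b * r⁻¹ ∈ B := by
  induction hb using Subgroup.closure_induction with
  | mem a ha =>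
    rcases ha with rfl | rfl
    · exact z1_mem_B
    · exact z2_mem_B
  | one => simp
  | mul a b _ _ ha hb =>
    have : r * (a * b) * r⁻¹ = (r * a * r⁻¹) * (r * b * r⁻¹) := by group
    rw [this]; exact mul_mem ha hb
  | inv a _ ha =>
    have : r * a⁻¹ * r⁻¹ = (r * a * r⁻¹)⁻¹ := by group
    rw [this]; exact inv_mem ha

lemma r_inv_conj_B {b : D} (hb : b ∈ B) : r⁻¹ * b * r ∈ B := by
  have h := r_conj_B (r_conj_B hb)
  have h2 : r * (r * b * r⁻¹) * r⁻¹ = r ^ 3 * (r⁻¹ * b * r) * (r ^ 3)⁻¹ := aux2 r b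
  rw [h2, r3] at h
  simpa using h

lemma r_inv_pow_conj_B (j : ℕ) {b : D} (hb : b ∈ B) : (r ^ j)⁻¹ * b * r ^ j ∈ B := by
  induction j with
  | zero => simpa using hb
  | succ j ih =>
    have h := r_inv_conj_B ih
    have h2 : (r ^ (j + 1))⁻¹ * b * r ^ (j + 1) = r⁻¹ * ((r ^ j)⁻¹ * b * r ^ j) * r := by
      rw [pow_succ]; group
    rw [h2]; exact h

lemma cover_B {h : D} (hh : h ∈ H) : ∃ j : Fin 3, ∃ b ∈ B, h = r ^ (j : ℕ) * b := by
  have hz : ∀ g, (∃ j : Fin 3, ∃ b ∈ B, g = r ^ (j : ℕ) * b) →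
      ∃ j : Fin 3, ∃ b ∈ B, z * g = r ^ (j : ℕ) * b := by
    rintro g ⟨j, b, hb, rfl⟩
    refine ⟨j, ((r ^ (j : ℕ))⁻¹ * z * r ^ (j : ℕ)) * b,
      mul_mem (r_inv_pow_conj_B _ z_mem_B) hb, ?_⟩
    group
  have hr : ∀ g, (∃ j : Fin 3, ∃ b ∈ B, g = r ^ (j : ℕ) * b) →
      ∃ j : Fin 3, ∃ b ∈ B, r * g = r ^ (j : ℕ) * b := by
    rintro g ⟨j, b, hb, rfl⟩
    fin_cases j
    · exact ⟨1, b, hb, by simp⟩
    · exact ⟨2, b, hb, by simp [pow_two, mul_assoc]⟩
    · refine ⟨0, b, hb, ?_⟩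
      change r * (r ^ 2 * b) = r ^ 0 * b
      rw [← mul_assoc, ← pow_succ', pow_zero]
      norm_num [r3]
  have hzinv : z⁻¹ = z * (z * (z * (z * (z * z)))) := by
    rw [eq_comm, eq_inv_iff_mul_eq_one, ← z7]; simp only [pow_succ, pow_zero, mul_assoc, one_mul]
  have hrinv : r⁻¹ = r * r := by
    rw [eq_comm, eq_inv_iff_mul_eq_one, ← r3]; simp only [pow_succ, pow_zero, mul_assoc, one_mul]
  unfold H at hh
  induction hh using Subgroup.closure_induction_left with
  | one => exact ⟨0, 1, one_mem _, by simp⟩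
  | mul_left a ha b _ hb =>
    rcases ha with rfl | rfl
    · exact hz _ hb
    · exact hr _ hb
  | inv_mul_cancel a ha b _ hb =>
    rcases ha with rfl | rfl
    · rw [hzinv]
      simp only [mul_assoc]
      exact hz _ (hz _ (hz _ (hz _ (hz _ (hz _ hb)))))
    · rw [hrinv]
      simp only [mul_assoc]
      exact hr _ (hr _ hb)

/-- conjugates of `k` -/
def kk (i : ℕ) : D := z ^ i * k * (z ^ i)⁻¹

lemma kk_add_seven (i : ℕ) : kk (i + 7) = kk i := by
  rw [kk, kk, pow_add, z7, mul_one]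

lemma kk_mod (i : ℕ) : kk (i % 7) = kk i := by
  rw [kk, kk, zz (i % 7) i (Nat.mod_mod _ _)]

/-- the subgroup generated by the conjugates of `k` -/
def C : Subgroup D := Subgroup.closure (Set.range kk)

lemma kk_mem (i : ℕ) : kk i ∈ C := Subgroup.subset_closure ⟨i, rfl⟩

lemma zpow_conj_C (n : ℕ) {c : D} (hc : c ∈ C) : z ^ n * c * (z ^ n)⁻¹ ∈ C := by
  induction hc using Subgroup.closure_induction with
  | mem a ha =>
    obtain ⟨i, rfl⟩ := ha
    have : z ^ n * kk i * (z ^ n)⁻¹ = kk (n + i) := by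
      rw [kk, kk, pow_add]; group
    rw [this]; exact kk_mem _
  | one => simp
  | mul a b _ _ ha hb =>
    have : z ^ n * (a * b) * (z ^ n)⁻¹ = (z ^ n * a * (z ^ n)⁻¹) * (z ^ n * b * (z ^ n)⁻¹) := by group
    rw [this]; exact mul_mem ha hb
  | inv a _ ha =>
    have : z ^ n * a⁻¹ * (z ^ n)⁻¹ = (z ^ n * a * (z ^ n)⁻¹)⁻¹ := by group
    rw [this]; exact inv_mem ha

lemma zpow_conj_C' (n : ℕ) {c : D} (hc : c ∈ C) : (z ^ n)⁻¹ * c * z ^ n ∈ C := by
  have h : (z ^ n)⁻¹ = z ^ (6 * n) := by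
    rw [inv_eq_iff_mul_eq_one, ← pow_add]
    have := zz (n + 6 * n) 0 (by omega)
    simpa using this
  have h2 : z ^ n = (z ^ (6 * n))⁻¹ := by rw [← h, inv_inv]
  have h3 := zpow_conj_C (6 * n) hc
  rw [← h2, ← h] at h3
  exact h3

lemma cover_C {b : D} (hb : b ∈ B) : ∃ l : Fin 7, ∃ c ∈ C, b = z ^ (l : ℕ) * c := by
  have hp : ∀ n, ∀ c ∈ C, ∃ l : Fin 7, ∃ c' ∈ C, z ^ n * c = z ^ (l : ℕ) * c' := by
    intro n c hc
    exact ⟨⟨n % 7, Nat.mod_lt _ (by norm_num)⟩, c, hc, by rw [zz n (n % 7) (Nat.mod_mod _ _).symm]⟩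
  have hzn : ∀ n g, (∃ l : Fin 7, ∃ c ∈ C, g = z ^ (l : ℕ) * c) →
      ∃ l : Fin 7, ∃ c ∈ C, z ^ n * g = z ^ (l : ℕ) * c := by
    rintro n g ⟨l, c, hc, rfl⟩
    rw [← mul_assoc, ← pow_add]
    exact hp _ _ hc
  have hk : ∀ g, ∀ c0 ∈ C, (∃ l : Fin 7, ∃ c ∈ C, g = z ^ (l : ℕ) * c) →
      ∃ l : Fin 7, ∃ c ∈ C, c0 * g = z ^ (l : ℕ) * c := by
    rintro g c0 hc0 ⟨l, c, hc, rfl⟩
    refine ⟨l, ((z ^ (l : ℕ))⁻¹ * c0 * z ^ (l : ℕ)) * c, mul_mem (zpow_conj_C' _ hc0) hc, ?_⟩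
    group
  have hk0 : k ∈ C := by
    have := kk_mem 0
    simpa [kk] using this
  have hz1 : z1 = k * z ^ 4 := by
    rw [k, mul_assoc, ← pow_add]
    norm_num [z7]
  have hz1' : z1⁻¹ = z ^ 3 * k⁻¹ := by
    rw [k, mul_inv_rev]; group
  unfold B at hb
  induction hb using Subgroup.closure_induction_left with
  | one => exact ⟨0, 1, one_mem _, by simp⟩
  | mul_left a ha b _ hb =>
    rcases ha with rfl | rfl
    · simpa using hzn 1 _ hb
    · rw [hz1, mul_assoc]
      exact hk _ _ hk0 (hzn 4 _ hb)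
  | inv_mul_cancel a ha b _ hb =>
    rcases ha with rfl | rfl
    · have : z⁻¹ = z ^ 6 := by
        rw [eq_comm, eq_inv_iff_mul_eq_one, ← pow_succ]; exact z7
      rw [this]; exact hzn 6 _ hb
    · rw [hz1', mul_assoc]
      exact hzn 3 _ (hk _ _ (inv_mem hk0) hb)

lemma C_index : C.FiniteIndex ∧ C.index ≤ 168 := by
  let f : Fin 8 × Fin 3 × Fin 7 → D ⧸ C := fun t =>
    ((P t.1 * (r ^ (t.2.1 : ℕ) * z ^ (t.2.2 : ℕ)) : D) : D ⧸ C)
  have hf : Function.Surjective f := by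
    intro q
    obtain ⟨g, rfl⟩ := QuotientGroup.mk_surjective q
    obtain ⟨i, h, hh, rfl⟩ := cover_H g
    obtain ⟨j, b, hb, rfl⟩ := cover_B hh
    obtain ⟨l, c, hc, rfl⟩ := cover_C hb
    refine ⟨(i, j, l), ?_⟩
    simp only [f]
    rw [QuotientGroup.eq]
    have : (P i * (r ^ (j : ℕ) * z ^ (l : ℕ)))⁻¹ * (P i * (r ^ (j : ℕ) * (z ^ (l : ℕ) * c))) = c := by
      group
    rw [this]; exact hc
  have hfin : Finite (D ⧸ C) := Finite.of_surjective f hf
  refine ⟨Subgroup.finiteIndex_of_finite_quotient, ?_⟩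
  rw [Subgroup.index_eq_card]
  have := Nat.card_le_card_of_surjective f hf
  refine this.trans ?_
  simp [Nat.card_eq_fintype_card]

/-- permutation by `x` -/
def px : Equiv.Perm (Fin 8) :=
  ⟨![7, 6, 3, 2, 5, 4, 1, 0], ![7, 6, 3, 2, 5, 4, 1, 0], by decide, by decide⟩
/-- permutation by `z` -/
def pz : Equiv.Perm (Fin 8) :=
  ⟨![1, 2, 3, 4, 5, 6, 0, 7], ![6, 0, 1, 2, 3, 4, 5, 7], by decide, by decide⟩

lemma px2 : px * px = 1 := by decide
lemma pxz3 : (px * pz) ^ 3 = 1 := by decide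
lemma pz7 : pz ^ 7 = 1 := by decide

/-- the action on 8 points -/
def phi : D →* Equiv.Perm (Fin 8) :=
  lift px (px * pz) px2 pxz3 (by rw [← mul_assoc, px2, one_mul]; exact pz7)

@[simp] lemma phi_x : phi x = px := lift_x _ _ _ _ _
@[simp] lemma phi_z : phi z = pz := by
  rw [phi, lift_z, ← mul_assoc, px2, one_mul]

lemma phi_k : phi k = 1 := by
  have h : phi r = px * pz ^ 4 * px * pz ^ 2 * px := by simp [r]
  rw [k, z1, map_mul, map_mul, map_mul, map_inv, map_pow, h, phi_z]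
  decide

/-- the normal subgroup of index 168 -/
def K0 : Subgroup D := phi.ker

instance : K0.Normal := by unfold K0; infer_instance

lemma C_le : C ≤ K0 := by
  rw [C, Subgroup.closure_le]
  rintro _ ⟨i, rfl⟩
  rw [SetLike.mem_coe, K0, MonoidHom.mem_ker, kk, map_mul, map_mul, phi_k, map_inv]
  simp

lemma dvd_card_range : 168 ∣ Nat.card phi.range := by
  have : Fact (Nat.Prime 7) := ⟨by norm_num⟩
  have h7 : 7 ∣ Nat.card phi.range := by
    have h1 : orderOf (⟨phi z, ⟨z, rfl⟩⟩ : phi.range) = 7 := by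
      apply orderOf_eq_prime
      · ext1
        simp only [SubgroupClass.coe_pow, phi_z, OneMemClass.coe_one, pz7]
      · intro h
        have := congrArg Subtype.val h
        simp only [phi_z, OneMemClass.coe_one] at this
        revert this
        decide
    rw [← h1]; exact orderOf_dvd_natCard _
  have h3 : 3 ∣ Nat.card phi.range := by
    have h1 : orderOf (⟨phi (x * z), ⟨x * z, rfl⟩⟩ : phi.range) = 3 := by
      apply orderOf_eq_prime
      · ext1
        simp only [SubgroupClass.coe_pow, map_mul, phi_x, phi_z, OneMemClass.coe_one, pxz3]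
      · intro h
        have := congrArg Subtype.val h
        simp only [map_mul, phi_x, phi_z, OneMemClass.coe_one] at this
        revert this
        decide
    rw [← h1]; exact orderOf_dvd_natCard _
  have h8 : 8 ∣ Nat.card phi.range := by
    have htr : MulAction.IsPretransitive phi.range (Fin 8) := by
      have h0 : ∀ i : Fin 8, ∃ g : phi.range, g • (7 : Fin 8) = i := by
        intro i
        fin_cases i
        · exact ⟨⟨phi x, x, rfl⟩, by simp only [phi_x]; decide⟩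
        · exact ⟨⟨phi (z * x), z * x, rfl⟩, by simp only [map_mul, phi_x, phi_z]; decide⟩
        · exact ⟨⟨phi (z ^ 2 * x), z ^ 2 * x, rfl⟩, by
            simp only [map_mul, map_pow, phi_x, phi_z]; decide⟩
        · exact ⟨⟨phi (z ^ 3 * x), z ^ 3 * x, rfl⟩, by
            simp only [map_mul, map_pow, phi_x, phi_z]; decide⟩
        · exact ⟨⟨phi (z ^ 4 * x), z ^ 4 * x, rfl⟩, by
            simp only [map_mul, map_pow, phi_x, phi_z]; decide⟩
        · exact ⟨⟨phi (z ^ 5 * x), z ^ 5 * x, rfl⟩, by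
            simp only [map_mul, map_pow, phi_x, phi_z]; decide⟩
        · exact ⟨⟨phi (z ^ 6 * x), z ^ 6 * x, rfl⟩, by
            simp only [map_mul, map_pow, phi_x, phi_z]; decide⟩
        · exact ⟨1, one_smul _ _⟩
      constructor
      intro a b
      obtain ⟨g, hg⟩ := h0 a
      obtain ⟨h, hh⟩ := h0 b
      exact ⟨h * g⁻¹, by rw [mul_smul, ← hg, inv_smul_smul, hh]⟩
    have h1 := MulAction.index_stabilizer_of_transitive phi.range (7 : Fin 8)
    have h2 := Subgroup.index_dvd_card (MulAction.stabilizer phi.range (7 : Fin 8))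
    rw [h1] at h2
    simpa using h2
  have h21 : 7 * 3 ∣ Nat.card phi.range := Nat.Coprime.mul_dvd_of_dvd_of_dvd (by norm_num) h7 h3
  have h168 : (7 * 3) * 8 ∣ Nat.card phi.range :=
    Nat.Coprime.mul_dvd_of_dvd_of_dvd (by norm_num) h21 h8
  exact h168

lemma K0_index : K0.index = 168 := by
  have h1 : K0.index = Nat.card phi.range := Subgroup.index_ker phi
  have h2 : K0.index ∣ C.index := Subgroup.index_dvd_of_le C_le
  obtain ⟨h3, h4⟩ := C_index
  have h5 : C.index ≠ 0 := h3.index_ne_zero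
  have h6 : K0.index ≤ 168 := (Nat.le_of_dvd (Nat.pos_of_ne_zero h5) h2).trans h4
  have h7 : 168 ∣ K0.index := by rw [h1]; exact dvd_card_range
  have h8 : K0.index ≠ 0 := fun h => h5 (by rw [h] at h2; exact Nat.eq_zero_of_zero_dvd h2)
  exact le_antisymm h6 (Nat.le_of_dvd (Nat.pos_of_ne_zero h8) h7)

lemma C_eq : C = K0 := by
  apply le_antisymm C_le
  obtain ⟨h3, h4⟩ := C_index
  have h5 : C.index ≠ 0 := h3.index_ne_zero
  have h6 := Subgroup.relIndex_mul_index C_le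
  rw [K0_index] at h6
  have h7 : C.relIndex K0 = 1 := by
    have : C.relIndex K0 ≠ 0 := by
      intro h; rw [h, zero_mul] at h6; exact h5 h6.symm
    by_contra h8
    have : 2 ≤ C.relIndex K0 := by omega
    omega
  exact Subgroup.relIndex_eq_one.mp h7

end Pool.Agent.W385.HZ

namespace Pool.Agent.W385.HZ

lemma aux3 {G : Type*} [Group G] (k z : G) :
    (z ^ 0 * k * (z ^ 0)⁻¹) * (z ^ 4 * k * (z ^ 4)⁻¹) * (z ^ 8 * k * (z ^ 8)⁻¹) *
      (z ^ 12 * k * (z ^ 12)⁻¹) * (z ^ 16 * k * (z ^ 16)⁻¹) * (z ^ 20 * k * (z ^ 20)⁻¹) *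
      (z ^ 24 * k * (z ^ 24)⁻¹) = (k * z ^ 4) ^ 7 * (z ^ 28)⁻¹ := by
  have : (k * z ^ 4) ^ 7 = k * z ^ 4 * (k * z ^ 4) * (k * z ^ 4) * (k * z ^ 4) * (k * z ^ 4) *
      (k * z ^ 4) * (k * z ^ 4) := by
    simp only [pow_succ, pow_zero, one_mul]
  rw [this]
  group

lemma prod_kk : kk 0 * kk 4 * kk 1 * kk 5 * kk 2 * kk 6 * kk 3 = 1 := by
  have h := aux3 k z
  have h1 : k * z ^ 4 = z1 := by
    rw [k, mul_assoc, ← pow_add]
    norm_num [z7]
  have h2 : z ^ 28 = 1 := by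
    have := zz 28 0 rfl
    simpa using this
  rw [h1, h2, z1, conj_pow, z7] at h
  have h3 : kk 0 * kk 4 * kk 8 * kk 12 * kk 16 * kk 20 * kk 24 = 1 := by
    simpa [kk] using h
  rw [← kk_mod 8, ← kk_mod 12, ← kk_mod 16, ← kk_mod 20, ← kk_mod 24] at h3
  exact h3

lemma kk_mem_K0 (i : ℕ) : kk i ∈ K0 := C_le (kk_mem i)

end Pool.Agent.W385.HZ
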