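import Pool.Agent.W385.HZ.Cong
import Pool.Agent.W385.HZ.K0
import Pool.Agent.Helper703.KL.Cox

set_option autoImplicit false

namespace Pool.Agent.W385.HZ

open R3 Pool.Agent.Helper703.Cox

/-- Coxeter matrix of type (2,3,7) -/
def cm : CoxeterMatrix (Fin 3) where
  M := Matrix.of ![![1, 2, 7], ![2, 1, 3], ![7, 3, 1]]
  isSymm := by
    apply Matrix.IsSymm.ext
    intro i j
    fin_cases i <;> fin_cases j <;> rfl
  diagonal := by intro i; fin_cases i <;> rfl
  off_diagonal := by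
    intro i j h
    fin_cases i <;> fin_cases j <;> first | exact absurd rfl h | (simp)

/-- Coxeter group -/
abbrev W : Type := cm.Group

/-- Coxeter system -/
abbrev cs : CoxeterSystem cm W := cm.toCoxeterSystem

/-- `2 cos (π/7)` in `R3` -/
def cR : R3 := ⟨0, 1, 0⟩

/-- reflections over `R3` -/
def Nf : Fin 3 → S3 :=
  ![!![-1, 0, cR; 0, 1, 0; 0, 0, 1], !![1, 0, 0; 0, -1, 1; 0, 0, 1], !![1, 0, 0; 0, 1, 0; cR, 1, -1]]

lemma Nf_liftable : cm.IsLiftable Nf := by
  intro i j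
  fin_cases i <;> fin_cases j
  · change (Nf 0 * Nf 0) ^ 1 = 1; decide +kernel
  · change (Nf 0 * Nf 1) ^ 2 = 1; decide +kernel
  · change (Nf 0 * Nf 2) ^ 7 = 1; decide +kernel
  · change (Nf 1 * Nf 0) ^ 2 = 1; decide +kernel
  · change (Nf 1 * Nf 1) ^ 1 = 1; decide +kernel
  · change (Nf 1 * Nf 2) ^ 3 = 1; decide +kernel
  · change (Nf 2 * Nf 0) ^ 7 = 1; decide +kernel
  · change (Nf 2 * Nf 1) ^ 3 = 1; decide +kernel
  · change (Nf 2 * Nf 2) ^ 1 = 1; decide +kernel

/-- geometric representation over `R3` -/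
def N : W →* S3 := cs.lift ⟨Nf, Nf_liftable⟩

@[simp] lemma N_simple (i : Fin 3) : N (cs.simple i) = Nf i :=
  cs.lift_apply_simple Nf_liftable i

/-- to real endomorphisms -/
noncomputable def Phi : S3 →* Module.End ℝ (Fin 3 → ℝ) where
  toFun A := Matrix.toLin' (ev.mapMatrix A)
  map_one' := by rw [map_one, Matrix.toLin'_one]; rfl
  map_mul' A B := by rw [map_mul, Matrix.toLin'_mul]; rfl

lemma Phi_Nf (j : Fin 3) : Phi (Nf j) = sg cm j := by
  have c01 : cc cm 0 1 = 0 := by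
    have : cc cm 0 1 = Real.cos (Real.pi / ((2 : ℕ) : ℝ)) := rfl
    rw [this]; simp
  have c12 : cc cm 1 2 = 1 / 2 := by
    have : cc cm 1 2 = Real.cos (Real.pi / ((3 : ℕ) : ℝ)) := rfl
    rw [this]; simp
  have c02 : cc cm 0 2 = c0 / 2 := by
    have : cc cm 0 2 = Real.cos (Real.pi / ((7 : ℕ) : ℝ)) := rfl
    rw [this, c0]; simp
  have c10 : cc cm 1 0 = 0 := by rw [cc_symm]; exact c01
  have c21 : cc cm 2 1 = 1 / 2 := by rw [cc_symm]; exact c12
  have c20 : cc cm 2 0 = c0 / 2 := by rw [cc_symm]; exact c02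
  have evc : ev cR = c0 := by simp [ev, cR]
  apply (Pi.basisFun ℝ (Fin 3)).ext
  intro i
  rw [Pi.basisFun_apply]
  have h1 : Phi (Nf j) (Pi.single i 1) = (ev.mapMatrix (Nf j)).col i := by
    change Matrix.toLin' (ev.mapMatrix (Nf j)) (Pi.single i 1) = _
    rw [Matrix.toLin'_apply, Matrix.mulVec_single_one]
  have h2 : sg cm j (Pi.single i 1) = ee i + (2 * cc cm i j) • ee j := sg_ee cm i j
  rw [h1, h2]
  ext l
  change ev (Nf j l i) = _
  fin_cases i <;> fin_cases j <;> fin_cases l <;>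
    simp [Nf, evc, c01, c12, c02, c10, c21, c20, ee] <;> ring

lemma Phi_N (w : W) : Phi (N w) = geo cs w := by
  have : Phi.comp N = geo cs := by
    apply cs.ext_simple
    intro i
    rw [MonoidHom.comp_apply, N_simple, geo_simple, Phi_Nf]
  exact DFunLike.congr_fun this w

lemma N_faithful {w : W} (h : N w = 1) : w = 1 := by
  apply geo_injective cs
  rw [← Phi_N, h, map_one, map_one]

end Pool.Agent.W385.HZ
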