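import Pool.Agent.W385.HZ.Kp

set_option autoImplicit false

namespace Pool.Agent.W385.HZ

/-- affine matrix of `x` -/
def MX : Matrix (Fin 7) (Fin 7) ℤ :=
  !![-1, -2, -1, 3, 3, -1, 1;
     0, -1, 0, 0, 0, 0, 0;
     0, -1, -2, 1, 2, 0, 0;
     0, -1, 1, 2, 0, -2, 0;
     0, -1, -2, 0, 2, 1, 0;
     0, -1, 0, 2, 1, -2, 0;
     0, 0, 0, 0, 0, 0, 1]

/-- affine matrix of `z` -/
def MZ : Matrix (Fin 7) (Fin 7) ℤ :=
  !![0, 0, 0, 0, 0, -1, 0;
     1, 0, 0, 0, 0, -1, 0;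
     0, 1, 0, 0, 0, -1, 0;
     0, 0, 1, 0, 0, -1, 0;
     0, 0, 0, 1, 0, -1, 0;
     0, 0, 0, 0, 1, -1, 0;
     0, 0, 0, 0, 0, 0, 1]

/-- matrix of `k` -/
def MK : Matrix (Fin 7) (Fin 7) ℤ :=
  !![1, 0, 0, 0, 0, 0, 6;
     0, 1, 0, 0, 0, 0, 0;
     0, 0, 1, 0, 0, 0, 2;
     0, 0, 0, 1, 0, 0, 4;
     0, 0, 0, 0, 1, 0, -2;
     0, 0, 0, 0, 0, 1, 4;
     0, 0, 0, 0, 0, 0, 1]

lemma MX2 : MX * MX = 1 := by decide +kernel
lemma MZ7 : MZ * MZ ^ 6 = 1 := by decide +kernel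
lemma MZ7' : MZ ^ 6 * MZ = 1 := by decide +kernel
lemma MXZ3 : (MX * MZ) ^ 3 = 1 := by decide +kernel
lemma MK_eq : (MX * MZ ^ 4 * MX * MZ ^ 2 * MX) * MZ * (MX * MZ ^ 5 * MX * MZ ^ 3 * MX) * MZ ^ 3 = MK := by
  decide +kernel

/-- unipotent with only the last column nonzero off the diagonal -/
def IsT (A : Fin 7 → Fin 7 → ℤ) : Prop :=
  ∀ i j : Fin 7, (j = 6 ∧ i ≠ 6) ∨ A i j = if i = j then 1 else 0

instance (A : Fin 7 → Fin 7 → ℤ) : Decidable (IsT A) := by
  unfold IsT; infer_instance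

lemma MK_conj : ∀ i : Fin 7, IsT (MZ ^ (i : ℕ) * MK * MZ ^ (7 - (i : ℕ))) := by decide +kernel

lemma isT_one : IsT (1 : Matrix (Fin 7) (Fin 7) ℤ) := fun _ _ => Or.inr (Matrix.one_apply)

lemma isT_mul {A B : Matrix (Fin 7) (Fin 7) ℤ} (hA : IsT A) (hB : IsT B) : IsT (A * B) ∧
    ∀ i, i ≠ 6 → (A * B) i 6 = A i 6 + B i 6 := by
  have hA' : ∀ i j, j ≠ 6 → A i j = (1 : Matrix (Fin 7) (Fin 7) ℤ) i j := fun i j hj =>
    (hA i j).resolve_left (fun h => hj h.1)
  have hB' : ∀ i j, j ≠ 6 → B i j = (1 : Matrix (Fin 7) (Fin 7) ℤ) i j := fun i j hj =>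
    (hB i j).resolve_left (fun h => hj h.1)
  have hA6 : A 6 6 = 1 := by
    have := (hA 6 6).resolve_left (fun h => h.2 rfl)
    simpa using this
  have hB6 : B 6 6 = 1 := by
    have := (hB 6 6).resolve_left (fun h => h.2 rfl)
    simpa using this
  have hA6j : ∀ j, A 6 j = (1 : Matrix (Fin 7) (Fin 7) ℤ) 6 j := fun j =>
    (hA 6 j).resolve_left (fun h => h.2 rfl)
  have h2 : ∀ i, i ≠ 6 → (A * B) i 6 = A i 6 + B i 6 := by
    intro i hi
    rw [Matrix.mul_apply]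
    rw [Finset.sum_eq_add_of_mem i 6 (Finset.mem_univ _) (Finset.mem_univ _) hi]
    · rw [hB6, hA' i i hi]; simp [add_comm]
    · intro k _ hk
      rw [hA' i k hk.2, Matrix.one_apply_ne (Ne.symm hk.1), zero_mul]
  refine ⟨?_, h2⟩
  intro i j
  by_cases hi : i = 6
  · right
    subst hi
    rw [Matrix.mul_apply, Finset.sum_eq_single 6]
    · rw [hA6, one_mul]
      exact (hB 6 j).resolve_left (fun h => h.2 rfl)
    · intro k _ hk
      rw [hA6j, Matrix.one_apply_ne (Ne.symm hk), zero_mul]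
    · intro h; exact absurd (Finset.mem_univ _) h
  · by_cases hj : j = 6
    · left; exact ⟨hj, hi⟩
    · right
      rw [Matrix.mul_apply, Finset.sum_eq_single j]
      · rw [hB' j j hj, hA' i j hj]; simp [Matrix.one_apply]
      · intro k _ hk
        rw [hB' k j hj, Matrix.one_apply_ne hk, mul_zero]
      · intro h; exact absurd (Finset.mem_univ _) h

/-- unit of `MX` -/
def uX : (Matrix (Fin 7) (Fin 7) ℤ)ˣ := ⟨MX, MX, MX2, MX2⟩
/-- unit of `MZ` -/
def uZ : (Matrix (Fin 7) (Fin 7) ℤ)ˣ := ⟨MZ, MZ ^ 6, MZ7, MZ7'⟩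

lemma uX2 : uX * uX = 1 := Units.ext MX2
lemma uZ7 : uZ ^ 7 = 1 := Units.ext (by
  rw [Units.val_pow_eq_pow_val]
  change MZ ^ 7 = 1
  rw [pow_succ', MZ7])

/-- the affine representation -/
def rho : D →* (Matrix (Fin 7) (Fin 7) ℤ)ˣ :=
  lift uX (uX * uZ) uX2 (Units.ext MXZ3) (by rw [← mul_assoc, uX2, one_mul]; exact uZ7)

@[simp] lemma rho_x : rho x = uX := lift_x _ _ _ _ _
@[simp] lemma rho_z : rho z = uZ := by
  rw [rho, lift_z, ← mul_assoc, uX2, one_mul]

lemma rho_k : (rho k).val = MK := by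
  have h1 : k = (x * z ^ 4 * x * z ^ 2 * x) * z * (x * z ^ 5 * x * z ^ 3 * x) * z ^ 3 := by
    rw [k, z1, r_inv, r]
  rw [h1]
  simp only [map_mul, map_pow, rho_x, rho_z, Units.val_mul, Units.val_pow_eq_pow_val]
  exact MK_eq

lemma rho_kk (i : ℕ) : IsT (rho (kk i)).val := by
  rw [← kk_mod i]
  have h1 : i % 7 < 7 := Nat.mod_lt _ (by norm_num)
  generalize i % 7 = j at h1
  have h2 : kk j = z ^ j * k * z ^ (7 - j) := by
    rw [kk]
    congr 1
    rw [inv_eq_iff_mul_eq_one, ← pow_add]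
    have : j + (7 - j) = 7 := by omega
    rw [this, z7]
  rw [h2]
  simp only [map_mul, map_pow, rho_z, Units.val_mul, Units.val_pow_eq_pow_val, rho_k]
  exact MK_conj ⟨j, h1⟩

lemma rho_isT {a : D} (ha : a ∈ K0) : IsT (rho a).val := by
  rw [← C_eq] at ha
  unfold C at ha
  have hinv : ∀ i, IsT (rho (kk i)⁻¹).val := by
    intro i
    -- inverse: product of the other conjugates
    have h7 : ∀ A : (Matrix (Fin 7) (Fin 7) ℤ)ˣ, IsT A.val → IsT (A⁻¹).val := by
      intro A hA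
      let w : Fin 7 → Fin 7 → ℤ := fun i j => if j = 6 ∧ i ≠ 6 then - A.val i 6 else
        (1 : Matrix (Fin 7) (Fin 7) ℤ) i j
      have hw : IsT (Matrix.of w) := by
        intro i j
        by_cases h : j = 6 ∧ i ≠ 6
        · left; exact h
        · right; simp only [Matrix.of_apply, w, h, if_false]; exact Matrix.one_apply
      have h1 : A.val * Matrix.of w = 1 := by
        obtain ⟨h2, h3⟩ := isT_mul hA hw
        ext i j
        rcases h2 i j with h4 | h4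
        · obtain ⟨rfl, h5⟩ := h4
          rw [h3 i h5, Matrix.of_apply, Matrix.one_apply_ne h5]
          simp only [w, h5, ne_eq, not_false_eq_true, and_self, if_true]
          ring
        · exact h4
      have h2 : (A⁻¹).val = Matrix.of w := by
        have : (A⁻¹).val * (A.val * Matrix.of w) = (A⁻¹).val := by rw [h1, mul_one]
        rw [← this, ← mul_assoc, Units.inv_mul, one_mul]
      rw [h2]; exact hw
    rw [map_inv]
    exact h7 _ (rho_kk i)
  induction ha using Subgroup.closure_induction_left with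
  | one => simpa using isT_one
  | mul_left a ha b _ hb =>
    obtain ⟨i, rfl⟩ := ha
    rw [map_mul, Units.val_mul]
    exact (isT_mul (rho_kk i) hb).1
  | inv_mul_cancel a ha b _ hb =>
    obtain ⟨i, rfl⟩ := ha
    rw [map_mul, Units.val_mul]
    exact (isT_mul (hinv i) hb).1

/-- one coordinate of the translation part -/
def tr (a : D) : ℤ := (rho a).val 2 6

lemma tr_mul {a b : D} (ha : a ∈ K0) (hb : b ∈ K0) : tr (a * b) = tr a + tr b := by
  unfold tr
  rw [map_mul, Units.val_mul]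
  exact (isT_mul (rho_isT ha) (rho_isT hb)).2 2 (by decide)

lemma tr_one : tr 1 = 0 := by
  have := tr_mul (one_mem K0) (one_mem K0)
  rw [one_mul] at this; linarith

lemma tr_inv {a : D} (ha : a ∈ K0) : tr a⁻¹ = - tr a := by
  have := tr_mul ha (inv_mem ha)
  rw [mul_inv_cancel, tr_one] at this; linarith

lemma tr_pow {a : D} (ha : a ∈ K0) (n : ℕ) : tr (a ^ n) = n * tr a := by
  induction n with
  | zero => simp [tr_one]
  | succ n ih => rw [pow_succ, tr_mul (pow_mem ha n) ha, ih]; push_cast; ring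

lemma tr_k : tr k = 2 := by
  unfold tr
  rw [rho_k]; rfl

lemma k_mem_K0 : k ∈ K0 := phi_k

lemma tr_Kp {p : ℕ} {a : D} (ha : a ∈ Kp p) : (p : ℤ) ∣ tr a := by
  have key : ∀ a, (h : a ∈ Subgroup.closure (Sp p)) → a ∈ K0 ∧ (p : ℤ) ∣ tr a := by
    intro a h
    induction h using Subgroup.closure_induction with
    | mem a ha =>
      refine ⟨Kp_le p (Subgroup.subset_closure ha), ?_⟩
      rcases ha with ⟨a, ha, b, hb, rfl⟩ | ⟨a, ha, rfl⟩
      · rw [tr_mul (mul_mem (mul_mem ha hb) (inv_mem ha)) (inv_mem hb),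
          tr_mul (mul_mem ha hb) (inv_mem ha), tr_mul ha hb, tr_inv ha, tr_inv hb]
        have : tr a + tr b + -tr a + -tr b = 0 := by ring
        rw [this]; exact dvd_zero _
      · rw [tr_pow ha]; exact dvd_mul_right _ _
    | one => exact ⟨one_mem _, by rw [tr_one]; exact dvd_zero _⟩
    | mul a b _ _ ha hb =>
      exact ⟨mul_mem ha.1 hb.1, by rw [tr_mul ha.1 hb.1]; exact dvd_add ha.2 hb.2⟩
    | inv a _ ha =>
      exact ⟨inv_mem ha.1, by rw [tr_inv ha.1]; exact (dvd_neg).mpr ha.2⟩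
  exact (key a ha).2

theorem Kp_relIndex {p : ℕ} [hp : Fact p.Prime] (h : p % 7 = 3 ∨ p % 7 = 5) (h2 : p ≠ 2) :
    (Kp p).relIndex K0 = p ^ 6 := by
  rcases lemA h (Kp p) (comm_mem_Kp p) (pow_mem_Kp p) with h1 | h1
  · exfalso
    have h3 : K0 ≤ Kp p := Subgroup.relIndex_eq_one.mp h1
    have h4 := tr_Kp (h3 k_mem_K0)
    rw [tr_k] at h4
    have h5 : p ∣ 2 := by exact_mod_cast h4
    exact h2 ((Nat.prime_dvd_prime_iff_eq hp.1 Nat.prime_two).mp h5)
  · exact h1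

theorem Kp_index {p : ℕ} [hp : Fact p.Prime] (h : p % 7 = 3 ∨ p % 7 = 5) (h2 : p ≠ 2) :
    (Kp p).index = 168 * p ^ 6 := by
  rw [← Subgroup.relIndex_mul_index (Kp_le p), Kp_relIndex h h2, K0_index, mul_comm]

end Pool.Agent.W385.HZ
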