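import Pool.Agent.W385.HZ.Cox

set_option autoImplicit false

namespace Pool.Agent.W385.HZ

open R3

/-- embedding of the triangle group in the Coxeter group -/
def iota : D →* W :=
  lift (cs.simple 0 * cs.simple 1) (cs.simple 1 * cs.simple 2)
    (by
      have := cs.simple_mul_simple_pow 0 1
      rw [← pow_two]; exact this)
    (cs.simple_mul_simple_pow 1 2)
    (by
      have h := cs.simple_mul_simple_pow 0 2
      have h1 : cs.simple 0 * cs.simple 1 * (cs.simple 1 * cs.simple 2) =
          cs.simple 0 * cs.simple 2 := by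
        rw [mul_assoc, ← mul_assoc (cs.simple 1) (cs.simple 1), cs.simple_mul_simple_self, one_mul]
      rw [h1]; exact h)

lemma iota_x : iota x = cs.simple 0 * cs.simple 1 := lift_x _ _ _ _ _
lemma iota_y : iota y = cs.simple 1 * cs.simple 2 := lift_y _ _ _ _ _

/-- the orientation reversing automorphism, as a homomorphism -/
def tauHom : D →* D :=
  lift x⁻¹ y⁻¹ (by rw [← mul_inv_rev, x2, inv_one]) (by rw [inv_pow, y3, inv_one])
    (by
      have h : x⁻¹ * y⁻¹ = (x * (x * y) * x⁻¹)⁻¹ := by
        have hx : x⁻¹ = x := by rw [inv_eq_iff_mul_eq_one]; exact x2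
        rw [← mul_assoc x x, x2, one_mul, mul_inv_rev, inv_inv, hx]
      have h7 : (x * y) ^ 7 = 1 := z7
      rw [h, inv_pow, conj_pow, h7]
      simp)

lemma tauHom_x : tauHom x = x⁻¹ := lift_x _ _ _ _ _
lemma tauHom_y : tauHom y = y⁻¹ := lift_y _ _ _ _ _

lemma D_hom_ext {G : Type*} [Group G] {f g : D →* G} (hx : f x = g x) (hy : f y = g y) : f = g := by
  apply PresentedGroup.ext
  intro i
  fin_cases i
  · exact hx
  · exact hy

lemma tau_tau : tauHom.comp tauHom = MonoidHom.id D := by
  apply D_hom_ext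
  · simp [tauHom_x]
  · simp [tauHom_y]

/-- the orientation reversing automorphism -/
def tau : MulAut D := MonoidHom.toMulEquiv tauHom tauHom tau_tau tau_tau

lemma tau_x : tau x = x⁻¹ := tauHom_x
lemma tau_y : tau y = y⁻¹ := tauHom_y
lemma tau_sq : tau * tau = 1 := by
  ext a
  exact DFunLike.congr_fun tau_tau a

/-- the holomorph -/
abbrev Hol : Type := D ⋊[MonoidHom.id (MulAut D)] MulAut D

open SemidirectProduct in
lemma inr_inl (a : D) : (inr tau : Hol) * inl a = inl (tau a) * inr tau := by
  ext <;> simp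

/-- images of the simple reflections -/
def gf : Fin 3 → Hol :=
  ![SemidirectProduct.inl x * SemidirectProduct.inr tau, SemidirectProduct.inr tau,
    SemidirectProduct.inr tau * SemidirectProduct.inl y]

open SemidirectProduct in
lemma inr_inr : (inr tau : Hol) * inr tau = 1 := by
  rw [← map_mul, tau_sq, map_one]

open SemidirectProduct in
lemma g00 : gf 0 * gf 0 = 1 := by
  change (inl x * inr tau : Hol) * (inl x * inr tau) = 1
  rw [mul_assoc, ← mul_assoc (inr tau : Hol), inr_inl, mul_assoc, inr_inr, mul_one, ← map_mul, tau_x,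
    mul_inv_cancel, map_one]

lemma g11 : gf 1 * gf 1 = 1 := inr_inr

open SemidirectProduct in
lemma g22 : gf 2 * gf 2 = 1 := by
  change (inr tau * inl y : Hol) * (inr tau * inl y) = 1
  have h : (inr tau : Hol) * inl y = inl (tau y) * inr tau := inr_inl y
  calc (inr tau * inl y : Hol) * (inr tau * inl y)
      = (inl (tau y) * inr tau) * (inr tau * inl y) := by rw [h]
    _ = inl (tau y) * ((inr tau * inr tau) * inl y) := by simp only [mul_assoc]
    _ = 1 := by rw [inr_inr, one_mul, ← map_mul, tau_y, inv_mul_cancel, map_one]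

open SemidirectProduct in
lemma g01 : gf 0 * gf 1 = inl x := by
  change (inl x * inr tau : Hol) * inr tau = inl x
  rw [mul_assoc, inr_inr, mul_one]

open SemidirectProduct in
lemma g12 : gf 1 * gf 2 = inl y := by
  change (inr tau : Hol) * (inr tau * inl y) = inl y
  rw [← mul_assoc, inr_inr, one_mul]

open SemidirectProduct in
lemma g02 : gf 0 * gf 2 = inl (x * y) := by
  change (inl x * inr tau : Hol) * (inr tau * inl y) = inl (x * y)
  rw [mul_assoc, ← mul_assoc (inr tau : Hol), inr_inr, one_mul, map_mul]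

lemma swap_pow {G : Type*} [Group G] {a b : G} (ha : a * a = 1) (hb : b * b = 1) {n : ℕ}
    (h : (a * b) ^ n = 1) : (b * a) ^ n = 1 := by
  have ha' : a⁻¹ = a := by rw [inv_eq_iff_mul_eq_one]; exact ha
  have hb' : b⁻¹ = b := by rw [inv_eq_iff_mul_eq_one]; exact hb
  have : b * a = (a * b)⁻¹ := by rw [mul_inv_rev, ha', hb']
  rw [this, inv_pow, h, inv_one]

lemma gf_liftable : cm.IsLiftable gf := by
  have h01 : (gf 0 * gf 1) ^ 2 = 1 := by
    rw [g01, ← map_pow, pow_two, x2, map_one]
  have h12 : (gf 1 * gf 2) ^ 3 = 1 := by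
    rw [g12, ← map_pow, y3, map_one]
  have h02 : (gf 0 * gf 2) ^ 7 = 1 := by
    have h7 : (x * y) ^ 7 = 1 := z7
    rw [g02, ← map_pow, h7, map_one]
  intro i j
  fin_cases i <;> fin_cases j
  · change (gf 0 * gf 0) ^ 1 = 1; rw [pow_one, g00]
  · exact h01
  · exact h02
  · exact swap_pow g00 g11 h01
  · change (gf 1 * gf 1) ^ 1 = 1; rw [pow_one, g11]
  · exact h12
  · exact swap_pow g00 g22 h02
  · exact swap_pow g11 g22 h12
  · change (gf 2 * gf 2) ^ 1 = 1; rw [pow_one, g22]

/-- map back -/
def back : W →* Hol := cs.lift ⟨gf, gf_liftable⟩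

lemma back_simple (i : Fin 3) : back (cs.simple i) = gf i := cs.lift_apply_simple gf_liftable i

lemma back_iota : back.comp iota = SemidirectProduct.inl := by
  apply D_hom_ext
  · rw [MonoidHom.comp_apply, iota_x, map_mul, back_simple, back_simple, g01]
  · rw [MonoidHom.comp_apply, iota_y, map_mul, back_simple, back_simple, g12]

lemma iota_injective : Function.Injective iota := by
  have h : Function.Injective (back.comp iota) := by
    rw [back_iota]; exact SemidirectProduct.inl_injective
  rw [MonoidHom.coe_comp] at h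
  exact Function.Injective.of_comp h

/-- reduction of the geometric representation of `D` modulo the prime above 7 -/
def Nred : D →* Matrix (Fin 3) (Fin 3) (ZMod 7) :=
  (red.mapMatrix : S3 →+* Matrix (Fin 3) (Fin 3) (ZMod 7)).toMonoidHom.comp (N.comp iota)

/-- matrix of `x` modulo the prime above 7 -/
def Bx : Matrix (Fin 3) (Fin 3) (ZMod 7) := red.mapMatrix (Nf 0 * Nf 1)
/-- matrix of `z` modulo the prime above 7 -/
def Bz : Matrix (Fin 3) (Fin 3) (ZMod 7) := red.mapMatrix (Nf 0 * Nf 2)

lemma Nred_x : Nred x = Bx := by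
  change red.mapMatrix (N (iota x)) = _
  rw [iota_x, map_mul, N_simple, N_simple]; rfl

lemma Nred_z : Nred z = Bz := by
  change red.mapMatrix (N (iota z)) = _
  rw [z, map_mul, iota_x, iota_y, mul_assoc, ← mul_assoc (cs.simple 1) (cs.simple 1),
    cs.simple_mul_simple_self, one_mul, map_mul, N_simple, N_simple]; rfl

lemma Nred_k : Nred k = 1 := by
  have h1 : k = (x * z ^ 4 * x * z ^ 2 * x) * z * (x * z ^ 5 * x * z ^ 3 * x) * z ^ 3 := by
    rw [k, z1, r_inv, r]
  rw [h1]
  simp only [map_mul, map_pow, Nred_x, Nred_z]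
  unfold Bx Bz
  decide +kernel

lemma Nred_K0 {a : D} (ha : a ∈ K0) : Nred a = 1 := by
  rw [← C_eq] at ha
  unfold C at ha
  have hkk : ∀ i, Nred (kk i) = 1 := by
    intro i
    rw [kk, map_mul, map_mul, Nred_k, mul_one, ← map_mul, mul_inv_cancel, map_one]
  induction ha using Subgroup.closure_induction with
  | mem a ha => obtain ⟨i, rfl⟩ := ha; exact hkk i
  | one => exact map_one _
  | mul a b _ _ ha hb => rw [map_mul, ha, hb, one_mul]
  | inv a _ ha =>
    have : Nred a⁻¹ * Nred a = 1 := by rw [← map_mul, inv_mul_cancel, map_one]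
    rw [ha, mul_one] at this; exact this

/-- `K0` is torsion-free. -/
theorem K0_torsionFree {a : D} (ha : a ∈ K0) (hfin : IsOfFinOrder a) : a = 1 := by
  by_contra h1
  have hn : orderOf a ≠ 1 := fun h => h1 (orderOf_eq_one_iff.mp h)
  obtain ⟨q, hq, hqd⟩ := Nat.exists_prime_and_dvd hn
  have hpos : 0 < orderOf a := hfin.orderOf_pos
  have hord : orderOf (a ^ (orderOf a / q)) = q := by
    rw [orderOf_pow_of_dvd (Nat.div_pos (Nat.le_of_dvd hpos hqd) hq.pos).ne' (Nat.div_dvd_of_dvd hqd),
      Nat.div_div_self hqd hpos.ne']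
  have ht : a ^ (orderOf a / q) ∈ K0 := pow_mem ha _
  generalize a ^ (orderOf a / q) = t at hord ht
  have h2 := Nred_K0 ht
  have h3 : ∀ i j, ∃ y, (N (iota t) - 1) i j = pi7 * y := by
    intro i j
    apply red_zero
    have h4 : red.mapMatrix (N (iota t)) = 1 := h2
    have h5 := congrFun (congrFun h4 i) j
    rw [Matrix.sub_apply, map_sub]
    have h6 : red ((N (iota t)) i j) = (1 : Matrix (Fin 3) (Fin 3) (ZMod 7)) i j := h5
    rw [h6, Matrix.one_apply, Matrix.one_apply]
    split_ifs <;> simp
  choose y hy using h3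
  have h4 : N (iota t) = 1 + pi7 • (Matrix.of y) := by
    have : N (iota t) - 1 = pi7 • (Matrix.of y) := by
      refine Matrix.ext fun i j => ?_
      rw [hy]; rfl
    rw [← this]; abel
  have h5 : N (iota t) ^ q = 1 := by
    rw [← map_pow, ← map_pow, ← hord, pow_orderOf_eq_one, map_one, map_one]
  have h6 := cong_torsion hq h4 h5
  have h7 := N_faithful h6
  have h8 : t = 1 := iota_injective (by rw [h7, map_one])
  rw [h8, orderOf_one] at hord
  exact hq.one_lt.ne hord

end Pool.Agent.W385.HZ
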