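import Pool.Agent.W385.HZ.Exist
import Pool.Agent.W385.HZ.Tors
import Pool.Agent.W385.HZ.Series

set_option autoImplicit false

namespace Pool.Agent.W385.HZ

/-- exactly one torsion-free normal subgroup of index `168 p^6` -/
theorem unique_surface {p : ℕ} (hp : p.Prime) (h : p % 7 = 3 ∨ p % 7 = 5) (hbig : 168 < p) :
    Nat.card {K : Subgroup D // K.Normal ∧ (∀ a ∈ K, IsOfFinOrder a → a = 1) ∧
      K.index = 168 * p ^ 6} = 1 := by
  have : Fact p.Prime := ⟨hp⟩
  rw [Nat.card_eq_one_iff_unique]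
  constructor
  · constructor
    rintro ⟨K, hK1, _, hK3⟩ ⟨L, hL1, _, hL3⟩
    apply Subtype.ext
    change K = L
    rw [uniqKp h hbig K hK3, uniqKp h hbig L hL3]
  · exact ⟨⟨Kp p, inferInstance, fun a ha hfin => K0_torsionFree (Kp_le p ha) hfin,
      Kp_index h (by omega)⟩⟩

end Pool.Agent.W385.HZ
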