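import Pool.Agent.W385.HZ.K0

set_option autoImplicit false

namespace Pool.Agent.W385.HZ

open Polynomial

/-- a cyclic module over `F_p[X]` killed by an irreducible polynomial -/
lemma cyclic_card {p : ℕ} [Fact p.Prime] {V : Type*} [AddCommGroup V] [Module (ZMod p) V]
    (T : Module.End (ZMod p) V) (v : V) (hgen : ∀ w : V, ∃ f : (ZMod p)[X], aeval T f v = w)
    (Φ : (ZMod p)[X]) (hirr : Irreducible Φ) (hΦ : aeval T Φ v = 0) :
    Nat.card V = 1 ∨ Nat.card V = p ^ Φ.natDegree := by
  let F : (ZMod p)[X] →ₗ[ZMod p] V := (LinearMap.applyₗ v) ∘ₗ (aeval T).toLinearMap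
  have hF : ∀ f, F f = aeval T f v := fun f => rfl
  let I : Ideal (ZMod p)[X] :=
    { carrier := {f | aeval T f v = 0}
      add_mem' := by
        intro a b ha hb
        change aeval T (a + b) v = 0
        change aeval T a v = 0 at ha
        change aeval T b v = 0 at hb
        rw [map_add, LinearMap.add_apply, ha, hb, add_zero]
      zero_mem' := by
        change aeval T 0 v = 0
        simp
      smul_mem' := by
        intro a b hb
        change aeval T b v = 0 at hb
        change aeval T (a • b) v = 0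
        rw [smul_eq_mul, map_mul, Module.End.mul_apply, hb, map_zero] }
  have hIle : Ideal.span {Φ} ≤ I := by
    rw [Ideal.span_le]
    rintro _ rfl
    exact hΦ
  have hmax : (Ideal.span {Φ}).IsMaximal :=
    PrincipalIdealRing.isMaximal_of_irreducible hirr
  by_cases hI : I = ⊤
  · left
    have h1 : (1 : (ZMod p)[X]) ∈ I := by rw [hI]; trivial
    have hv : v = 0 := by
      have : aeval T (1 : (ZMod p)[X]) v = 0 := h1
      simpa using this
    have : Subsingleton V := by
      constructor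
      intro a b
      obtain ⟨f, rfl⟩ := hgen a
      obtain ⟨g, rfl⟩ := hgen b
      rw [hv, map_zero, map_zero]
    have : Nonempty V := ⟨0⟩
    exact Nat.card_unique
  · right
    have hIeq : I = Ideal.span {Φ} := (hmax.eq_of_le hI hIle).symm
    have hΦ0 : Φ ≠ 0 := hirr.ne_zero
    have hker : ∀ f, F f = 0 → Φ ∣ f := by
      intro f hf
      rw [← Ideal.mem_span_singleton, ← hIeq]
      exact hf
    let G : (Fin Φ.natDegree → ZMod p) →ₗ[ZMod p] V :=
      F ∘ₗ (Submodule.subtype _) ∘ₗ (degreeLTEquiv (ZMod p) Φ.natDegree).symm.toLinearMap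
    have hGinj : Function.Injective G := by
      rw [← LinearMap.ker_eq_bot, LinearMap.ker_eq_bot']
      intro m hm
      have h1 : Φ ∣ (((degreeLTEquiv (ZMod p) Φ.natDegree).symm m : degreeLT (ZMod p) Φ.natDegree) :
          (ZMod p)[X]) := hker _ hm
      have h2 := ((degreeLTEquiv (ZMod p) Φ.natDegree).symm m).2
      rw [mem_degreeLT] at h2
      have h3 := eq_zero_of_dvd_of_degree_lt h1 (by rw [degree_eq_natDegree hΦ0]; exact h2)
      have h4 : (degreeLTEquiv (ZMod p) Φ.natDegree).symm m = 0 := Subtype.ext h3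
      simpa using h4
    have hGsurj : Function.Surjective G := by
      intro w
      obtain ⟨f, rfl⟩ := hgen w
      have h1 : f % Φ ∈ degreeLT (ZMod p) Φ.natDegree := by
        rw [mem_degreeLT, ← degree_eq_natDegree hΦ0]
        exact degree_mod_lt f hΦ0
      refine ⟨degreeLTEquiv (ZMod p) Φ.natDegree ⟨f % Φ, h1⟩, ?_⟩
      change F (((degreeLTEquiv (ZMod p) Φ.natDegree).symm
        (degreeLTEquiv (ZMod p) Φ.natDegree ⟨f % Φ, h1⟩) : degreeLT (ZMod p) Φ.natDegree) :
          (ZMod p)[X]) = _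
      rw [LinearEquiv.symm_apply_apply]
      have h2 : f = (f / Φ) * Φ + f % Φ := by
        rw [mul_comm]; exact (EuclideanDomain.div_add_mod f Φ).symm
      conv_rhs => rw [h2]
      rw [hF, map_add, LinearMap.add_apply, map_mul, Module.End.mul_apply, hΦ, map_zero, zero_add]
    have hbij : Nat.card (Fin Φ.natDegree → ZMod p) = Nat.card V :=
      Nat.card_eq_of_bijective G ⟨hGinj, hGsurj⟩
    rw [← hbij]
    simp [Nat.card_eq_fintype_card, ZMod.card]

lemma irred7 {p : ℕ} [hp : Fact p.Prime] (h : p % 7 = 3 ∨ p % 7 = 5) :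
    Irreducible (cyclotomic 7 (ZMod p)) := by
  have hn : ¬ p ∣ 7 := by
    intro hd
    have := (Nat.prime_dvd_prime_iff_eq hp.1 (by norm_num : Nat.Prime 7)).mp hd
    omega
  refine ZMod.irreducible_of_dvd_cyclotomic_of_natDegree hn dvd_rfl ?_
  rw [natDegree_cyclotomic]
  have hphi : Nat.totient 7 = 6 := by decide
  rw [hphi]
  symm
  have hval : ((ZMod.unitOfCoprime p (hp.1.coprime_iff_not_dvd.mpr hn) : (ZMod 7)ˣ) : ZMod 7) =
      ((p % 7 : ℕ) : ZMod 7) := by
    rw [ZMod.coe_unitOfCoprime]; simp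
  generalize ZMod.unitOfCoprime p (hp.1.coprime_iff_not_dvd.mpr hn) = u at hval
  rcases h with h | h
  · rw [h] at hval
    have hu : u = ⟨3, 5, by decide, by decide⟩ := Units.ext (by rw [hval]; rfl)
    rw [hu, orderOf_eq_iff (by norm_num)]
    decide
  · rw [h] at hval
    have hu : u = ⟨5, 3, by decide, by decide⟩ := Units.ext (by rw [hval]; rfl)
    rw [hu, orderOf_eq_iff (by norm_num)]
    decide

end Pool.Agent.W385.HZ

namespace Pool.Agent.W385.HZ

open Polynomial

/-- conjugation by `z` on `K0` -/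
def cz : K0 →* K0 := (MulAut.conjNormal z).toMonoidHom

lemma cz_val (a : K0) : ((cz a : K0) : D) = z * a * z⁻¹ := MulAut.conjNormal_apply z a

theorem lemA_core {p : ℕ} [hp : Fact p.Prime] (h : p % 7 = 3 ∨ p % 7 = 5) {V : Type*}
    [AddCommGroup V] [Module (ZMod p) V]
    (q : K0 → V) (hqmul : ∀ a b, q (a * b) = q a + q b) (hqs : Function.Surjective q)
    (T : Module.End (ZMod p) V) (hT : ∀ a, T (q a) = q (cz a)) :
    Nat.card V = 1 ∨ Nat.card V = p ^ 6 := by
  have hq1 : q 1 = 0 := by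
    have := hqmul 1 1
    rw [one_mul] at this
    simpa using this
  have hqinv : ∀ a, q a⁻¹ = - q a := fun a => by
    rw [eq_neg_iff_add_eq_zero, ← hqmul, inv_mul_cancel, hq1]
  let kc : ℕ → K0 := fun i => ⟨kk i, kk_mem_K0 i⟩
  let v : V := q (kc 0)
  have hTi : ∀ i : ℕ, (T ^ i) v = q (kc i) := by
    intro i
    induction i with
    | zero => rfl
    | succ i ih =>
      rw [pow_succ', Module.End.mul_apply, ih, hT]
      congr 1
      apply Subtype.ext
      rw [cz_val]
      change z * kk i * z⁻¹ = kk (i + 1)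
      rw [kk, kk, pow_succ']; group
  have hgen : ∀ w : V, ∃ f : (ZMod p)[X], aeval T f v = w := by
    intro w
    obtain ⟨⟨a, ha⟩, rfl⟩ := hqs w
    have ha' : a ∈ Subgroup.closure (Set.range kk) := by
      change a ∈ C; rw [C_eq]; exact ha
    have key : ∀ a, (h : a ∈ Subgroup.closure (Set.range kk)) → ∃ f : (ZMod p)[X], aeval T f v =
        q ⟨a, C_le h⟩ := by
      intro a h
      induction h using Subgroup.closure_induction with
      | mem a ha =>
        obtain ⟨i, rfl⟩ := ha
        exact ⟨X ^ i, by rw [map_pow, aeval_X, hTi]⟩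
      | one => exact ⟨0, by
          rw [map_zero, LinearMap.zero_apply]
          exact hq1.symm⟩
      | mul a b ha hb hfa hfb =>
        obtain ⟨f, hf⟩ := hfa
        obtain ⟨g, hg⟩ := hfb
        exact ⟨f + g, by rw [map_add, LinearMap.add_apply, hf, hg, ← hqmul]; rfl⟩
      | inv a ha hfa =>
        obtain ⟨f, hf⟩ := hfa
        exact ⟨-f, by rw [map_neg, LinearMap.neg_apply, hf, ← hqinv]; rfl⟩
    exact key a ha'
  have hΦ : aeval T (cyclotomic 7 (ZMod p)) v = 0 := by
    have : Fact (Nat.Prime 7) := ⟨by norm_num⟩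
    rw [cyclotomic_prime, map_sum, LinearMap.sum_apply]
    have h1 : ∀ i ∈ Finset.range 7, (aeval T ((X : (ZMod p)[X]) ^ i)) v = q (kc i) := by
      intro i _
      rw [map_pow, aeval_X, hTi]
    rw [Finset.sum_congr rfl h1]
    simp only [Finset.sum_range_succ, Finset.sum_range_zero, zero_add]
    have h2 : q (kc 0 * kc 4 * kc 1 * kc 5 * kc 2 * kc 6 * kc 3) = 0 := by
      have h3 : kc 0 * kc 4 * kc 1 * kc 5 * kc 2 * kc 6 * kc 3 = 1 := Subtype.ext prod_kk
      rw [h3, hq1]
    rw [hqmul, hqmul, hqmul, hqmul, hqmul, hqmul] at h2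
    rw [← h2]
    abel
  have h3 := cyclic_card T v hgen (cyclotomic 7 (ZMod p)) (irred7 h) hΦ
  rw [natDegree_cyclotomic] at h3
  have hphi : Nat.totient 7 = 6 := by decide
  rw [hphi] at h3
  exact h3

theorem lemA_core' {p : ℕ} [hp : Fact p.Prime] (h : p % 7 = 3 ∨ p % 7 = 5) {V : Type*}
    [AddCommGroup V] (hpV : ∀ a : V, p • a = 0)
    (q : K0 → V) (hqmul : ∀ a b, q (a * b) = q a + q b) (hqs : Function.Surjective q)
    (T : V →+ V) (hT : ∀ a, T (q a) = q (cz a)) :
    Nat.card V = 1 ∨ Nat.card V = p ^ 6 := by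
  let _ : Module (ZMod p) V := AddCommGroup.zmodModule hpV
  exact lemA_core h q hqmul hqs (AddMonoidHom.toZModLinearMap p T) hT

theorem lemA {p : ℕ} [hp : Fact p.Prime] (h : p % 7 = 3 ∨ p % 7 = 5) (L : Subgroup D)
    [hLn : L.Normal] (hc : ∀ a ∈ K0, ∀ b ∈ K0, a * b * a⁻¹ * b⁻¹ ∈ L)
    (hpow : ∀ a ∈ K0, a ^ p ∈ L) :
    L.relIndex K0 = 1 ∨ L.relIndex K0 = p ^ 6 := by
  have hNmem : ∀ a : K0, a ∈ L.subgroupOf K0 ↔ (a : D) ∈ L := fun a => Subgroup.mem_subgroupOf
  have hcomm : ∀ a b : K0 ⧸ L.subgroupOf K0, a * b = b * a := by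
    intro a b
    obtain ⟨a, rfl⟩ := QuotientGroup.mk_surjective a
    obtain ⟨b, rfl⟩ := QuotientGroup.mk_surjective b
    rw [← QuotientGroup.mk_mul, ← QuotientGroup.mk_mul, QuotientGroup.eq, hNmem]
    have h1 := hc _ (inv_mem b.2) _ (inv_mem a.2)
    simp only [inv_inv] at h1
    have : (((a * b)⁻¹ * (b * a) : K0) : D) = (b : D)⁻¹ * (a : D)⁻¹ * b * a := by
      simp [mul_assoc]
    rw [this]; exact h1
  have hNle : L.subgroupOf K0 ≤ (L.subgroupOf K0).comap cz := by
    intro a ha
    rw [Subgroup.mem_comap, hNmem, cz_val]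
    exact hLn.conj_mem _ ((hNmem _).mp ha) _
  let _ : CommGroup (K0 ⧸ L.subgroupOf K0) :=
    { (inferInstance : Group (K0 ⧸ L.subgroupOf K0)) with mul_comm := hcomm }
  have := @lemA_core' p hp h (Additive (K0 ⧸ L.subgroupOf K0)) _ (by
      intro a
      obtain ⟨a, rfl⟩ := Additive.ofMul.surjective a
      obtain ⟨a, rfl⟩ := QuotientGroup.mk_surjective a
      rw [← ofMul_pow, ofMul_eq_zero]
      change (QuotientGroup.mk (a ^ p) : K0 ⧸ L.subgroupOf K0) = 1
      rw [QuotientGroup.eq_one_iff, hNmem]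
      exact hpow _ a.2)
    (fun a => Additive.ofMul (QuotientGroup.mk a)) (fun a b => rfl) (by
      intro a
      obtain ⟨a, rfl⟩ := Additive.ofMul.surjective a
      obtain ⟨a, rfl⟩ := QuotientGroup.mk_surjective a
      exact ⟨a, rfl⟩)
    (MonoidHom.toAdditive (QuotientGroup.map (L.subgroupOf K0) (L.subgroupOf K0) cz hNle))
    (fun a => rfl)
  exact this

end Pool.Agent.W385.HZ
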