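import Pool.Agent.W385.HZ.Uniq
import Pool.Agent.W385.HZ.LemA

set_option autoImplicit false

namespace Pool.Agent.W385.HZ

/-- commutators and `p`-th powers of elements of `K0` -/
def Sp (p : ℕ) : Set D :=
  {g | (∃ a ∈ K0, ∃ b ∈ K0, g = a * b * a⁻¹ * b⁻¹) ∨ ∃ a ∈ K0, g = a ^ p}

/-- the subgroup `K0' K0^p` -/
def Kp (p : ℕ) : Subgroup D := Subgroup.closure (Sp p)

lemma K0_conj (g : D) {a : D} (ha : a ∈ K0) : g * a * g⁻¹ ∈ K0 :=
  Subgroup.Normal.conj_mem inferInstance a ha g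

instance (p : ℕ) : (Kp p).Normal := by
  constructor
  intro n hn g
  unfold Kp at hn
  induction hn using Subgroup.closure_induction with
  | mem a ha =>
    apply Subgroup.subset_closure
    rcases ha with ⟨a, ha, b, hb, rfl⟩ | ⟨a, ha, rfl⟩
    · left
      exact ⟨g * a * g⁻¹, K0_conj g ha, g * b * g⁻¹, K0_conj g hb, by group⟩
    · right
      exact ⟨g * a * g⁻¹, K0_conj g ha, by rw [conj_pow]⟩
  | one => simp
  | mul a b _ _ ha hb =>
    have : g * (a * b) * g⁻¹ = (g * a * g⁻¹) * (g * b * g⁻¹) := by group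
    rw [this]; exact mul_mem ha hb
  | inv a _ ha =>
    have : g * a⁻¹ * g⁻¹ = (g * a * g⁻¹)⁻¹ := by group
    rw [this]; exact inv_mem ha

lemma Kp_le (p : ℕ) : Kp p ≤ K0 := by
  rw [Kp, Subgroup.closure_le]
  rintro g (⟨a, ha, b, hb, rfl⟩ | ⟨a, ha, rfl⟩)
  · exact mul_mem (mul_mem (mul_mem ha hb) (inv_mem ha)) (inv_mem hb)
  · exact pow_mem ha p

lemma comm_mem_Kp (p : ℕ) : ∀ a ∈ K0, ∀ b ∈ K0, a * b * a⁻¹ * b⁻¹ ∈ Kp p :=
  fun a ha b hb => Subgroup.subset_closure (Or.inl ⟨a, ha, b, hb, rfl⟩)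

lemma pow_mem_Kp (p : ℕ) : ∀ a ∈ K0, a ^ p ∈ Kp p :=
  fun a ha => Subgroup.subset_closure (Or.inr ⟨a, ha, rfl⟩)

/-- a nontrivial `p`-group of order `p^(n+1)` has a subgroup containing all commutators and `p`-th
powers, which is proper -/
lemma pgroup_proper {p : ℕ} [hp : Fact p.Prime] {Q : Type*} [Group Q] {n : ℕ}
    (hQ : Nat.card Q = p ^ (n + 1)) : ∃ M : Subgroup Q, M ≠ ⊤ ∧ (∀ a b : Q, a * b * a⁻¹ * b⁻¹ ∈ M) ∧
      ∀ a : Q, a ^ p ∈ M := by
  have hfin : Finite Q := Nat.finite_of_card_ne_zero (by rw [hQ]; exact pow_ne_zero _ hp.1.ne_zero)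
  obtain ⟨M, hM⟩ := Sylow.exists_subgroup_card_pow_prime (G := Q) p (n := n)
    (by rw [hQ]; exact pow_dvd_pow _ (Nat.le_succ n))
  have hidx : M.index = p := by
    have h1 := M.card_mul_index
    rw [hM, hQ, pow_succ] at h1
    exact Nat.eq_of_mul_eq_mul_left (pow_pos hp.1.pos n) h1
  have hnorm : M.Normal := by
    apply Subgroup.normal_of_index_eq_minFac_card
    rw [hidx, hQ, Nat.Prime.pow_minFac hp.1 (Nat.succ_ne_zero n)]
  have hcard : Nat.card (Q ⧸ M) = p := by rw [← Subgroup.index_eq_card, hidx]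
  have hcyc : IsCyclic (Q ⧸ M) := isCyclic_of_prime_card hcard
  refine ⟨M, ?_, ?_, ?_⟩
  · rintro rfl
    rw [Subgroup.index_top] at hidx
    exact hp.1.one_lt.ne hidx
  · intro a b
    rw [← QuotientGroup.eq_one_iff]
    have hc : ∀ u v : Q ⧸ M, u * v = v * u := by
      intro u v
      have := IsCyclic.commGroup (α := Q ⧸ M)
      obtain ⟨g, hg⟩ := hcyc.exists_generator
      obtain ⟨i, rfl⟩ := hg u
      obtain ⟨j, rfl⟩ := hg v
      change g ^ i * g ^ j = g ^ j * g ^ i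
      rw [← zpow_add, ← zpow_add, add_comm]
    have h1 : ((a * b * a⁻¹ * b⁻¹ : Q) : Q ⧸ M) = (a : Q ⧸ M) * b * (a : Q ⧸ M)⁻¹ * (b : Q ⧸ M)⁻¹ := rfl
    rw [h1, hc (a : Q ⧸ M) b]
    group
  · intro a
    rw [← QuotientGroup.eq_one_iff]
    have h1 : ((a ^ p : Q) : Q ⧸ M) = (a : Q ⧸ M) ^ p := rfl
    rw [h1, ← hcard]
    exact pow_card_eq_one'

theorem uniqKp {p : ℕ} [hp : Fact p.Prime] (h : p % 7 = 3 ∨ p % 7 = 5) (hbig : 168 < p)
    (K : Subgroup D) [hKn : K.Normal] (hK : K.index = 168 * p ^ 6) : K = Kp p := by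
  have hp0 : p ≠ 0 := hp.1.ne_zero
  have hcard : Nat.card (D ⧸ K) = 168 * p ^ 6 := by rw [← Subgroup.index_eq_card, hK]
  have hfin : Finite (D ⧸ K) := Nat.finite_of_card_ne_zero (by rw [hcard]; positivity)
  let π : D →* D ⧸ K := QuotientGroup.mk' K
  have hπ : Function.Surjective π := QuotientGroup.mk'_surjective K
  let P : Sylow p (D ⧸ K) := default
  have hndvd : ¬ p ∣ 168 := fun hd => by
    have := Nat.le_of_dvd (by norm_num) hd
    omega
  have hPcard : Nat.card P = p ^ 6 := by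
    rw [P.card_eq_multiplicity, hcard, Nat.factorization_mul (by norm_num) (by positivity),
      Finsupp.add_apply, Nat.factorization_eq_zero_of_not_dvd hndvd, Nat.Prime.factorization_pow hp.1]
    simp
  have hPidx : (P : Subgroup (D ⧸ K)).index = 168 := by
    have h1 := (P : Subgroup (D ⧸ K)).card_mul_index
    rw [hcard] at h1
    change Nat.card P * _ = _ at h1
    rw [hPcard, mul_comm 168] at h1
    exact Nat.eq_of_mul_eq_mul_left (by positivity) h1
  have hn1 : Nat.card (Sylow p (D ⧸ K)) ≡ 1 [MOD p] := card_sylow_modEq_one p (D ⧸ K)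
  have hn2 : Nat.card (Sylow p (D ⧸ K)) ∣ 168 := by
    rw [← hPidx]; exact P.card_dvd_index
  have hn : Nat.card (Sylow p (D ⧸ K)) = 1 := by
    have hle := Nat.le_of_dvd (by norm_num) hn2
    have h1 : Nat.card (Sylow p (D ⧸ K)) % p = 1 % p := hn1
    rw [Nat.mod_eq_of_lt (by omega), Nat.mod_eq_of_lt (by omega)] at h1
    exact h1
  have hsub : Subsingleton (Sylow p (D ⧸ K)) := (Nat.card_eq_one_iff_unique.mp hn).1
  have hPn : (P : Subgroup (D ⧸ K)).Normal := P.normal_of_subsingleton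
  have hNK : (P : Subgroup (D ⧸ K)).comap π = K0 := by
    apply uniq168
    rw [Subgroup.index_comap_of_surjective _ hπ, hPidx]
  have hKle : K ≤ K0 := by
    rw [← hNK]
    intro a ha
    rw [Subgroup.mem_comap]
    have : π a = 1 := (QuotientGroup.eq_one_iff _).mpr ha
    rw [this]; exact one_mem _
  have hrel : K.relIndex K0 = p ^ 6 := by
    have h1 := Subgroup.relIndex_mul_index hKle
    rw [hK, K0_index, mul_comm] at h1
    exact Nat.eq_of_mul_eq_mul_left (by norm_num) h1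
  have hp6 : p ^ 6 ≠ 1 := by
    have := Nat.one_lt_pow (n := 6) (by norm_num) hp.1.one_lt
    omega
  let L : Subgroup D := K ⊔ Kp p
  have hLle : L ≤ K0 := sup_le hKle (Kp_le p)
  have hLn : L.Normal := Subgroup.sup_normal K (Kp p)
  have hKL : K ≤ L := le_sup_left
  have hKpL : Kp p ≤ L := le_sup_right
  have hL := lemA h L (fun a ha b hb => hKpL (comm_mem_Kp p a ha b hb))
    (fun a ha => hKpL (pow_mem_Kp p a ha))
  have hLp : L.relIndex K0 = p ^ 6 := by
    rcases hL with hL | hL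
    · exfalso
      have hK0L : K0 ≤ L := Subgroup.relIndex_eq_one.mp hL
      obtain ⟨M, hM1, hM2, hM3⟩ := pgroup_proper (p := p) (Q := (P : Subgroup (D ⧸ K))) (n := 5) hPcard
      -- the subgroup of elements of `K0` mapping into `M`
      have hmem : ∀ a ∈ K0, π a ∈ (P : Subgroup (D ⧸ K)) := by
        intro a ha; rw [← hNK] at ha; exact ha
      let R : Subgroup D := (M.map (P : Subgroup (D ⧸ K)).subtype).comap π
      have hKR : K ≤ R := by
        intro a ha
        have : π a = 1 := (QuotientGroup.eq_one_iff _).mpr ha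
        rw [Subgroup.mem_comap, this]; exact one_mem _
      have hKpR : Kp p ≤ R := by
        rw [Kp, Subgroup.closure_le]
        rintro g (⟨a, ha, b, hb, rfl⟩ | ⟨a, ha, rfl⟩)
        · rw [SetLike.mem_coe, Subgroup.mem_comap, Subgroup.mem_map]
          exact ⟨_, hM2 ⟨π a, hmem a ha⟩ ⟨π b, hmem b hb⟩, by simp⟩
        · rw [SetLike.mem_coe, Subgroup.mem_comap, Subgroup.mem_map]
          exact ⟨_, hM3 ⟨π a, hmem a ha⟩, by simp⟩
      have hLR : K0 ≤ R := hK0L.trans (sup_le hKR hKpR)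
      apply hM1
      rw [eq_top_iff]
      intro m _
      obtain ⟨d, hd⟩ := hπ (m : D ⧸ K)
      have hdK0 : d ∈ K0 := by
        rw [← hNK, Subgroup.mem_comap, hd]; exact m.2
      have h1 := hLR hdK0
      rw [Subgroup.mem_comap, hd, Subgroup.mem_map] at h1
      obtain ⟨m', hm', h2⟩ := h1
      have : m' = m := Subtype.ext h2
      rw [← this]; exact hm'
    · exact hL
  have hLK : L ≤ K := by
    have h1 := Subgroup.relIndex_mul_relIndex K L K0 hKL hLle
    rw [hLp, hrel] at h1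
    apply Subgroup.relIndex_eq_one.mp
    exact Nat.eq_of_mul_eq_mul_right (by positivity : 0 < p ^ 6) (by rw [h1, one_mul])
  have hKpK : Kp p ≤ K := hKpL.trans hLK
  have hKp := lemA h (Kp p) (comm_mem_Kp p) (pow_mem_Kp p)
  have hKpp : (Kp p).relIndex K0 = p ^ 6 := by
    rcases hKp with hKp | hKp
    · exfalso
      have h1 : K0 ≤ Kp p := Subgroup.relIndex_eq_one.mp hKp
      have h2 : K.relIndex K0 = 1 := Subgroup.relIndex_eq_one.mpr (h1.trans hKpK)
      rw [hrel] at h2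
      exact hp6 h2
    · exact hKp
  apply le_antisymm _ hKpK
  have h1 := Subgroup.relIndex_mul_relIndex (Kp p) K K0 hKpK hKle
  rw [hKpp, hrel] at h1
  apply Subgroup.relIndex_eq_one.mp
  exact Nat.eq_of_mul_eq_mul_right (by positivity : 0 < p ^ 6) (by rw [h1, one_mul])

end Pool.Agent.W385.HZ
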