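import Mathlib

set_option autoImplicit false

namespace Pool.Agent.W385.HZ

/-- `ℤ[c]`, `c³ = c² + 2 c - 1` -/
@[ext] structure R3 where
  /-- coefficient of 1 -/
  a : ℤ
  /-- coefficient of c -/
  b : ℤ
  /-- coefficient of c² -/
  d : ℤ
deriving DecidableEq

namespace R3

instance : Zero R3 := ⟨⟨0, 0, 0⟩⟩
instance : One R3 := ⟨⟨1, 0, 0⟩⟩
instance : Add R3 := ⟨fun x y => ⟨x.a + y.a, x.b + y.b, x.d + y.d⟩⟩
instance : Neg R3 := ⟨fun x => ⟨-x.a, -x.b, -x.d⟩⟩
instance : Mul R3 := ⟨fun x y =>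
  ⟨x.a * y.a - (x.b * y.d + x.d * y.b) - x.d * y.d,
   x.a * y.b + x.b * y.a + 2 * (x.b * y.d + x.d * y.b) + x.d * y.d,
   x.a * y.d + x.d * y.a + x.b * y.b + (x.b * y.d + x.d * y.b) + 3 * (x.d * y.d)⟩⟩

@[simp] lemma zero_a : (0 : R3).a = 0 := rfl
@[simp] lemma zero_b : (0 : R3).b = 0 := rfl
@[simp] lemma zero_d : (0 : R3).d = 0 := rfl
@[simp] lemma one_a : (1 : R3).a = 1 := rfl
@[simp] lemma one_b : (1 : R3).b = 0 := rfl
@[simp] lemma one_d : (1 : R3).d = 0 := rfl
@[simp] lemma add_a (x y : R3) : (x + y).a = x.a + y.a := rfl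
@[simp] lemma add_b (x y : R3) : (x + y).b = x.b + y.b := rfl
@[simp] lemma add_d (x y : R3) : (x + y).d = x.d + y.d := rfl
@[simp] lemma neg_a (x : R3) : (-x).a = -x.a := rfl
@[simp] lemma neg_b (x : R3) : (-x).b = -x.b := rfl
@[simp] lemma neg_d (x : R3) : (-x).d = -x.d := rfl
@[simp] lemma mul_a (x y : R3) : (x * y).a =
  x.a * y.a - (x.b * y.d + x.d * y.b) - x.d * y.d := rfl
@[simp] lemma mul_b (x y : R3) : (x * y).b =
  x.a * y.b + x.b * y.a + 2 * (x.b * y.d + x.d * y.b) + x.d * y.d := rfl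
@[simp] lemma mul_d (x y : R3) : (x * y).d =
  x.a * y.d + x.d * y.a + x.b * y.b + (x.b * y.d + x.d * y.b) + 3 * (x.d * y.d) := rfl

instance : CommRing R3 where
  add_assoc x y z := by ext <;> simp <;> ring
  zero_add x := by ext <;> simp
  add_zero x := by ext <;> simp
  add_comm x y := by ext <;> simp <;> ring
  neg_add_cancel x := by ext <;> simp
  mul_assoc x y z := by ext <;> simp <;> ring
  one_mul x := by ext <;> simp
  mul_one x := by ext <;> simp
  left_distrib x y z := by ext <;> simp <;> ring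
  right_distrib x y z := by ext <;> simp <;> ring
  mul_comm x y := by ext <;> simp <;> ring
  zero_mul x := by ext <;> simp
  mul_zero x := by ext <;> simp
  nsmul := nsmulRec
  zsmul := zsmulRec

lemma nsmul_coords (n : ℕ) (x : R3) : n • x = ⟨n * x.a, n * x.b, n * x.d⟩ := by
  induction n with
  | zero => ext <;> simp
  | succ n ih => rw [succ_nsmul, ih]; ext <;> simp <;> ring

lemma zsmul_coords (n : ℤ) (x : R3) : n • x = ⟨n * x.a, n * x.b, n * x.d⟩ := by
  obtain ⟨m, rfl | rfl⟩ := n.eq_nat_or_neg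
  · rw [natCast_zsmul, nsmul_coords]
  · rw [neg_smul, natCast_zsmul, nsmul_coords]; ext <;> simp

lemma natCast_coords (n : ℕ) : (n : R3) = ⟨n, 0, 0⟩ := by
  rw [← nsmul_one, nsmul_coords]; simp

/-- evaluation at `2 cos (π/7)` -/
noncomputable def c0 : ℝ := 2 * Real.cos (Real.pi / 7)

lemma c0_eq : c0 ^ 3 = c0 ^ 2 + 2 * c0 - 1 := by
  unfold c0
  set θ := Real.pi / 7 with hθ
  have h1 : Real.cos (4 * θ) = - Real.cos (3 * θ) := by
    rw [← Real.cos_pi_sub]
    congr 1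
    rw [hθ]; ring
  have h3 : Real.cos (3 * θ) = 4 * Real.cos θ ^ 3 - 3 * Real.cos θ := Real.cos_three_mul θ
  have h4 : Real.cos (4 * θ) = 8 * Real.cos θ ^ 4 - 8 * Real.cos θ ^ 2 + 1 := by
    have : 4 * θ = 2 * (2 * θ) := by ring
    rw [this, Real.cos_two_mul, Real.cos_two_mul]; ring
  rw [h3, h4] at h1
  have hpos : 0 < Real.cos θ := by
    apply Real.cos_pos_of_mem_Ioo
    constructor
    · have := Real.pi_pos; rw [hθ]; linarith
    · have := Real.pi_pos; rw [hθ]; linarith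
  have h5 : (Real.cos θ + 1) * (8 * Real.cos θ ^ 3 - 4 * Real.cos θ ^ 2 - 4 * Real.cos θ + 1) = 0 := by
    linear_combination h1
  rcases mul_eq_zero.mp h5 with h6 | h6
  · linarith
  · linear_combination h6

/-- evaluation -/
noncomputable def ev : R3 →+* ℝ where
  toFun x := x.a + x.b * c0 + x.d * c0 ^ 2
  map_one' := by simp
  map_mul' x y := by
    have h := c0_eq
    simp only [mul_a, mul_b, mul_d]
    push_cast
    have h4 : c0 ^ 4 = 3 * c0 ^ 2 + c0 - 1 := by
      have : c0 ^ 4 = c0 * c0 ^ 3 := by ring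
      rw [this, h]; linear_combination h
    linear_combination (-(x.b * y.d + x.d * y.b : ℝ)) * h - (x.d * y.d : ℝ) * h4
  map_zero' := by simp
  map_add' x y := by simp; ring

/-- the prime above 7 -/
def pi7 : R3 := ⟨2, 1, 0⟩

/-- `7 = π³ v` -/
def v7 : R3 := ⟨3, -7, 3⟩

/-- inverse of `v7` -/
def u7 : R3 := ⟨1, 2, 1⟩

/-- conjugate of `π` -/
def pi7' : R3 := ⟨4, -3, 1⟩

lemma pi7_mul : pi7' * pi7 = 7 := by
  have : (7 : R3) = ((7 : ℕ) : R3) := by norm_num
  rw [this, natCast_coords]; decide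

lemma seven_eq : (7 : R3) = pi7 ^ 3 * v7 := by
  have : (7 : R3) = ((7 : ℕ) : R3) := by norm_num
  rw [this, natCast_coords]
  simp only [pow_succ, pow_zero, one_mul]
  decide

lemma u7_v7 : u7 * v7 = 1 := by decide

/-- reduction to `F_7` -/
def red : R3 →+* ZMod 7 where
  toFun x := (x.a : ZMod 7) + x.b * 5 + x.d * 4
  map_one' := by simp
  map_mul' x y := by
    simp only [mul_a, mul_b, mul_d]
    push_cast
    have h1 : (7 : ZMod 7) = 0 := by decide
    linear_combination (-(x.b * y.b : ZMod 7) * 3 - (x.b * y.d + x.d * y.b : ZMod 7)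
      - 0 * (x.d * y.d : ZMod 7)) * h1
  map_zero' := by simp
  map_add' x y := by simp; ring

end R3

end Pool.Agent.W385.HZ
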