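import Pool.Agent.W385.HZ.Act8

set_option autoImplicit false

namespace Pool.Agent.W385.HZ

lemma trivial_of_z {G : Type*} [Group G] (f : D →* G) (hf : Function.Surjective f) (h : f z = 1)
    (g : G) : g = 1 := by
  have hxy : f y = f x := by rw [y_eq, map_mul, h, mul_one]
  have hx : f x = 1 := by
    have h2 : f x * f x = 1 := by rw [← map_mul, x2, map_one]
    have h3 : f x ^ 3 = 1 := by rw [← hxy, ← map_pow, y3, map_one]
    have : f x ^ 3 = f x * f x * f x := by simp only [pow_succ, pow_zero, one_mul]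
    rw [this, h2, one_mul] at h3
    exact h3
  obtain ⟨d, rfl⟩ := hf g
  refine D_ind (p := fun d => f d = 1) (map_one f) ?_ ?_ d
  · intro g hg; rw [map_mul, hx, hg, one_mul]
  · intro g hg; rw [map_mul, h, hg, one_mul]

theorem uniq168 (N : Subgroup D) [hNn : N.Normal] (hN : N.index = 168) : N = K0 := by
  have h7 : Fact (Nat.Prime 7) := ⟨by norm_num⟩
  have hcard : Nat.card (D ⧸ N) = 168 := by rw [← Subgroup.index_eq_card, hN]
  have hfin : Finite (D ⧸ N) := Nat.finite_of_card_ne_zero (by rw [hcard]; norm_num)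
  let π : D →* D ⧸ N := QuotientGroup.mk' N
  have hπ : Function.Surjective π := QuotientGroup.mk'_surjective N
  have hz1 : π z ≠ 1 := by
    intro h
    have h1 := trivial_of_z π hπ h
    have : Subsingleton (D ⧸ N) := ⟨fun a b => by rw [h1 a, h1 b]⟩
    have : Nat.card (D ⧸ N) = 1 := by
      have : Nonempty (D ⧸ N) := ⟨1⟩
      exact Nat.card_unique
    omega
  have hord : orderOf (π z) = 7 := orderOf_eq_prime (by rw [← map_pow, z7, map_one]) hz1
  have hfac : (Nat.card (D ⧸ N)).factorization 7 = 1 := by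
    rw [hcard, show 168 = 7 * 24 by norm_num, Nat.factorization_mul (by norm_num) (by norm_num)]
    rw [Finsupp.add_apply, Nat.Prime.factorization_self (by norm_num),
      Nat.factorization_eq_zero_of_not_dvd (by norm_num)]
  let S : Sylow 7 (D ⧸ N) := Sylow.ofCard (Subgroup.zpowers (π z)) (by
    rw [hfac, Nat.card_zpowers, hord]; rfl)
  have hS : (S : Subgroup (D ⧸ N)) = Subgroup.zpowers (π z) := rfl
  have hScard : Nat.card S = 7 := by
    change Nat.card (S : Subgroup (D ⧸ N)) = 7
    rw [hS, Nat.card_zpowers, hord]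
  have hSidx : (S : Subgroup (D ⧸ N)).index = 24 := by
    have h1 := (S : Subgroup (D ⧸ N)).card_mul_index
    rw [hcard] at h1
    change Nat.card S * _ = _ at h1
    rw [hScard] at h1
    omega
  have hn1 : Nat.card (Sylow 7 (D ⧸ N)) % 7 = 1 := by
    have := card_sylow_modEq_one 7 (D ⧸ N)
    exact this
  have hn2 : Nat.card (Sylow 7 (D ⧸ N)) ∣ 24 := by
    rw [← hSidx]; exact S.card_dvd_index
  have hzS : π z ∈ (S : Subgroup (D ⧸ N)) := by rw [hS]; exact Subgroup.mem_zpowers _
  have hn : Nat.card (Sylow 7 (D ⧸ N)) = 1 ∨ Nat.card (Sylow 7 (D ⧸ N)) = 8 := by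
    generalize Nat.card (Sylow 7 (D ⧸ N)) = n at hn1 hn2
    have hle : n ≤ 24 := Nat.le_of_dvd (by norm_num) hn2
    interval_cases n <;> omega
  rcases hn with hn | hn
  · exfalso
    have hsub : Subsingleton (Sylow 7 (D ⧸ N)) := (Nat.card_eq_one_iff_unique.mp hn).1
    have hnorm : (S : Subgroup (D ⧸ N)).Normal := S.normal_of_subsingleton
    let π2 : D →* (D ⧸ N) ⧸ (S : Subgroup (D ⧸ N)) := (QuotientGroup.mk' _).comp π
    have hπ2 : Function.Surjective π2 := (QuotientGroup.mk'_surjective _).comp hπ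
    have h1 := trivial_of_z π2 hπ2 ((QuotientGroup.eq_one_iff _).mpr hzS)
    have h2 : (S : Subgroup (D ⧸ N)).index = 1 := by
      rw [Subgroup.index_eq_card]
      have : Subsingleton ((D ⧸ N) ⧸ (S : Subgroup (D ⧸ N))) := ⟨fun a b => by rw [h1 a, h1 b]⟩
      have : Nonempty ((D ⧸ N) ⧸ (S : Subgroup (D ⧸ N))) := ⟨1⟩
      exact Nat.card_unique
    omega
  · let _ : MulAction D (Sylow 7 (D ⧸ N)) := MulAction.compHom _ π
    have hact : ∀ (g : D) (Q : Sylow 7 (D ⧸ N)), g • Q = π g • Q := fun _ _ => rfl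
    have hle : N ≤ K0 := by
      intro g hg
      refine act8 hn S ?_ ?_ ?_ ?_
      · rw [hact, Sylow.smul_eq_iff_mem_normalizer]
        exact Subgroup.le_normalizer hzS
      · intro hx
        have hzfix : z • S = S := by
          rw [hact, Sylow.smul_eq_iff_mem_normalizer]
          exact Subgroup.le_normalizer hzS
        have hall : ∀ g : D, g • S = S := by
          intro g
          refine D_ind (p := fun g => g • S = S) (one_smul _ _) ?_ ?_ g
          · intro g hg; rw [mul_smul, hg, hx]
          · intro g hg; rw [mul_smul, hg, hzfix]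
        have h1 : ∀ Q : Sylow 7 (D ⧸ N), Q = S := by
          intro Q
          obtain ⟨g, hg⟩ := MulAction.exists_smul_eq (D ⧸ N) S Q
          obtain ⟨d, rfl⟩ := hπ g
          rw [← hg]
          exact hall d
        have h2 : Nat.card (Sylow 7 (D ⧸ N)) = 1 := by
          rw [Nat.card_eq_one_iff_unique]
          exact ⟨⟨fun a b => by rw [h1 a, h1 b]⟩, ⟨S⟩⟩
        omega
      · intro Q hQ
        rw [hact, Sylow.smul_eq_iff_mem_normalizer] at hQ
        have h1 : Q ∈ MulAction.fixedPoints (S : Subgroup (D ⧸ N)) (Sylow 7 (D ⧸ N)) := by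
          rw [Subgroup.sylow_mem_fixedPoints_iff, hS, Subgroup.zpowers_le]
          exact hQ
        have h2 : (S : Subgroup (D ⧸ N)) ≤ Q := (IsPGroup.sylow_mem_fixedPoints_iff S.2).mp h1
        apply Sylow.ext
        exact (S.is_maximal' Q.2 h2)
      · intro Q
        rw [hact]
        have : π g = 1 := (QuotientGroup.eq_one_iff _).mpr hg
        rw [this, one_smul]
    apply le_antisymm hle
    have h1 := Subgroup.relIndex_mul_index hle
    rw [hN, K0_index] at h1
    exact Subgroup.relIndex_eq_one.mp (by omega)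

end Pool.Agent.W385.HZ
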